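import Pool.Agent.Y129.Half.TrForm

/-!
# The Cauchy-Schwarz inequality for spaces of operators between several spaces

Let `V i` be finite-dimensional spaces with involutions `p i`, and `S i j` spaces of linear maps
from `V j` to `V i`, closed under composition, containing the identities and commuting with the
involutions. The ranks of the forms `tr (p g u g' v)`, `u ∈ S i j`, `v ∈ S j i`, `g`, `g'`
idempotents, satisfy a Cauchy-Schwarz inequality.
-/

set_option linter.unusedSectionVars false

namespace Pool.Agent.Y129.Half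

open Module

variable {ι K : Type*} [Fintype ι] [DecidableEq ι] [Field K] {V : ι → Type*}
  [∀ i, AddCommGroup (V i)] [∀ i, Module K (V i)]

/-- Spaces of linear maps closed under composition. -/
structure Cat (K : Type*) [Field K] (V : ι → Type*) [∀ i, AddCommGroup (V i)]
    [∀ i, Module K (V i)] where
  /-- the involutions -/
  p : ∀ i, V i →ₗ[K] V i
  p_sq : ∀ i, p i ∘ₗ p i = LinearMap.id
  /-- the spaces of linear maps -/
  S : ∀ i j, Submodule K (V j →ₗ[K] V i)
  one : ∀ i, LinearMap.id ∈ S i i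
  mul : ∀ {i j k : ι} {a : V j →ₗ[K] V i} {b : V k →ₗ[K] V j}, a ∈ S i j → b ∈ S j k →
    a ∘ₗ b ∈ S i k
  comm : ∀ {i j : ι} {a : V j →ₗ[K] V i}, a ∈ S i j → p i ∘ₗ a = a ∘ₗ p j

namespace Cat

variable (C : Cat K V)

/-- The component of an operator. -/
def cmp (i j : ι) : Module.End K (∀ i, V i) →ₗ[K] (V j →ₗ[K] V i) where
  toFun T := LinearMap.proj i ∘ₗ T ∘ₗ LinearMap.single K V j
  map_add' _ _ := rfl
  map_smul' _ _ := rfl

lemma cmp_apply (i j : ι) (T : Module.End K (∀ i, V i)) :
    cmp i j T = LinearMap.proj i ∘ₗ T ∘ₗ LinearMap.single K V j := rfl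

lemma single_proj : ∑ j : ι, (LinearMap.single K V j) ∘ₗ (LinearMap.proj j) =
    (LinearMap.id : (∀ i, V i) →ₗ[K] (∀ i, V i)) := by
  apply LinearMap.ext
  intro x
  rw [LinearMap.sum_apply]
  simp only [LinearMap.comp_apply, LinearMap.proj_apply, LinearMap.single_apply,
    LinearMap.id_apply]
  exact Finset.univ_sum_single x

lemma cmp_mul (i k : ι) (T T' : Module.End K (∀ i, V i)) :
    cmp i k (T * T') = ∑ j, cmp i j T ∘ₗ cmp j k T' := by
  have h : T * T' = T ∘ₗ (∑ j : ι, (LinearMap.single K V j) ∘ₗ (LinearMap.proj j)) ∘ₗ T' := by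
    rw [single_proj]; rfl
  rw [h]
  apply LinearMap.ext
  intro x
  simp [cmp_apply, LinearMap.sum_apply, map_sum, LinearMap.comp_apply]

lemma cmp_one (i j : ι) : cmp i j (1 : Module.End K (∀ i, V i)) =
    if h : j = i then h ▸ LinearMap.id else 0 := by
  split_ifs with h
  · subst h
    apply LinearMap.ext
    intro x
    simp [cmp_apply]
  · apply LinearMap.ext
    intro x
    simp only [cmp_apply, LinearMap.comp_apply, Module.End.one_apply, LinearMap.proj_apply,
      LinearMap.single_apply, LinearMap.zero_apply]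
    rw [Pi.single_eq_of_ne (Ne.symm h)]

lemma ext_cmp {T T' : Module.End K (∀ i, V i)} (h : ∀ i j, cmp i j T = cmp i j T') : T = T' := by
  have key : ∀ T : Module.End K (∀ i, V i), T = ∑ i, ∑ j, LinearMap.single K V i ∘ₗ
      cmp i j T ∘ₗ LinearMap.proj j := by
    intro T
    have h1 : T = (∑ i : ι, (LinearMap.single K V i) ∘ₗ (LinearMap.proj i)) ∘ₗ T ∘ₗ
        (∑ j : ι, (LinearMap.single K V j) ∘ₗ (LinearMap.proj j)) := by
      rw [single_proj]; rfl
    conv_lhs => rw [h1]
    apply LinearMap.ext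
    intro x
    simp only [cmp_apply, LinearMap.sum_apply, map_sum, LinearMap.comp_apply]
    exact Finset.sum_comm
  rw [key T, key T']
  simp only [h]

/-- The algebra of the operators on the sum of the `V i` with components in the `S i j`. -/
def alg : Subalgebra K (Module.End K (∀ i, V i)) where
  carrier := {T | ∀ i j, cmp i j T ∈ C.S i j}
  mul_mem' := fun {a b} ha hb i k => by
    rw [cmp_mul]
    exact Submodule.sum_mem _ fun j _ => C.mul (ha i j) (hb j k)
  add_mem' := fun {a b} ha hb i j => by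
    rw [map_add]; exact Submodule.add_mem _ (ha i j) (hb i j)
  algebraMap_mem' := fun r i j => by
    have h : algebraMap K (Module.End K (∀ i, V i)) r = r • 1 := by
      rw [Algebra.algebraMap_eq_smul_one]
    rw [h, map_smul]
    apply Submodule.smul_mem
    rw [cmp_one]
    split_ifs with h
    · subst h; exact C.one j
    · exact Submodule.zero_mem _

lemma mem_alg {T : Module.End K (∀ i, V i)} : T ∈ C.alg ↔ ∀ i j, cmp i j T ∈ C.S i j := Iff.rfl

/-- The involution on the sum. -/
def P : Module.End K (∀ i, V i) := LinearMap.pi fun i => C.p i ∘ₗ LinearMap.proj i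

lemma P_single (i : ι) : C.P ∘ₗ LinearMap.single K V i = LinearMap.single K V i ∘ₗ C.p i := by
  apply LinearMap.ext
  intro x
  funext j
  simp only [P, LinearMap.comp_apply, LinearMap.pi_apply, LinearMap.proj_apply,
    LinearMap.single_apply]
  by_cases h : j = i
  · subst h; simp
  · rw [Pi.single_eq_of_ne h, Pi.single_eq_of_ne h, map_zero]

lemma proj_P (i : ι) : (LinearMap.proj i : (∀ i, V i) →ₗ[K] V i) ∘ₗ C.P =
    C.p i ∘ₗ LinearMap.proj i := rfl

lemma P_sq : C.P * C.P = 1 := by
  apply LinearMap.ext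
  intro x
  funext i
  exact congrArg (fun f : V i →ₗ[K] V i => f (x i)) (C.p_sq i)

lemma P_comm {T : Module.End K (∀ i, V i)} (hT : T ∈ C.alg) : C.P * T = T * C.P := by
  apply ext_cmp
  intro i j
  have h1 : cmp i j (C.P * T) = C.p i ∘ₗ cmp i j T := rfl
  have h2 : cmp i j (T * C.P) = cmp i j T ∘ₗ C.p j := by
    change LinearMap.proj i ∘ₗ T ∘ₗ (C.P ∘ₗ LinearMap.single K V j) = _
    rw [P_single]
    rfl
  rw [h1, h2, C.comm (hT i j)]

variable [∀ i, FiniteDimensional K (V i)]

/-- The super trace. -/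
noncomputable def tr : Tr K C.alg where
  τ := (LinearMap.trace K (∀ i, V i)) ∘ₗ (LinearMap.mulLeft K C.P) ∘ₗ C.alg.val.toLinearMap
  cyc x y := by
    change LinearMap.trace K _ (C.P * ((x : Module.End K (∀ i, V i)) *
        (y : Module.End K (∀ i, V i)))) =
      LinearMap.trace K _ (C.P * ((y : Module.End K (∀ i, V i)) * (x : Module.End K (∀ i, V i))))
    rw [← mul_assoc, LinearMap.trace_mul_comm, ← mul_assoc, ← mul_assoc, C.P_comm y.2]
  nil x hx := by
    change LinearMap.trace K _ (C.P * (x : Module.End K _)) = 0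
    have h1 : IsNilpotent (x : Module.End K (∀ i, V i)) := hx.map C.alg.val
    have h2 : IsNilpotent (C.P * (x : Module.End K (∀ i, V i))) := by
      obtain ⟨n, hn⟩ := h1
      refine ⟨n, ?_⟩
      have hc : Commute C.P (x : Module.End K (∀ i, V i)) := C.P_comm x.2
      rw [hc.mul_pow, hn, mul_zero]
    exact (LinearMap.isNilpotent_trace_of_isNilpotent h2).eq_zero

lemma tr_apply (x : C.alg) : C.tr.τ x = LinearMap.trace K _ (C.P * (x : Module.End K _)) := rfl

/-- The form `tr (p g u g' v)` on `S i j × S j i`. -/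
noncomputable def B (i j : ι) (g : V i →ₗ[K] V i) (g' : V j →ₗ[K] V j) :
    C.S i j →ₗ[K] C.S j i →ₗ[K] K :=
  LinearMap.mk₂ K (fun u v => LinearMap.trace K (V i) (C.p i ∘ₗ g ∘ₗ (u : V j →ₗ[K] V i) ∘ₗ g' ∘ₗ
      (v : V i →ₗ[K] V j)))
    (fun u u' v => by
      simp only [Submodule.coe_add, LinearMap.add_comp, LinearMap.comp_add, map_add])
    (fun c u v => by
      simp only [Submodule.coe_smul, LinearMap.smul_comp, LinearMap.comp_smul, map_smul])
    (fun u v v' => by
      simp only [Submodule.coe_add, LinearMap.comp_add, map_add])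
    (fun c u v => by
      simp only [Submodule.coe_smul, LinearMap.comp_smul, map_smul])

lemma B_apply (i j : ι) (g : V i →ₗ[K] V i) (g' : V j →ₗ[K] V j) (u : C.S i j) (v : C.S j i) :
    C.B i j g g' u v = LinearMap.trace K (V i) (C.p i ∘ₗ g ∘ₗ (u : V j →ₗ[K] V i) ∘ₗ g' ∘ₗ
      (v : V i →ₗ[K] V j)) := rfl

/-- The operator on the sum given by an operator in a single component. -/
def emb (i j : ι) (u : V j →ₗ[K] V i) : Module.End K (∀ i, V i) :=
  LinearMap.single K V i ∘ₗ u ∘ₗ LinearMap.proj j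

omit [∀ i, FiniteDimensional K (V i)] in
lemma cmp_emb_same (i j : ι) (u : V j →ₗ[K] V i) : cmp i j (emb i j u) = u := by
  apply LinearMap.ext
  intro x
  simp [cmp_apply, emb]

omit [∀ i, FiniteDimensional K (V i)] in
lemma emb_mem {i j : ι} {u : V j →ₗ[K] V i} (hu : u ∈ C.S i j) : emb i j u ∈ C.alg := by
  intro a b
  by_cases ha : a = i
  · subst ha
    by_cases hb : b = j
    · subst hb
      rw [cmp_emb_same]
      exact hu
    · have : cmp a b (emb a j u) = 0 := by
        apply LinearMap.ext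
        intro x
        simp only [cmp_apply, emb, LinearMap.comp_apply, LinearMap.proj_apply,
          LinearMap.single_apply, LinearMap.zero_apply]
        rw [Pi.single_eq_of_ne (Ne.symm hb), map_zero, Pi.single_zero]
        rfl
      rw [this]
      exact Submodule.zero_mem _
  · have : cmp a b (emb i j u) = 0 := by
      apply LinearMap.ext
      intro x
      simp only [cmp_apply, emb, LinearMap.comp_apply, LinearMap.proj_apply,
        LinearMap.single_apply, LinearMap.zero_apply]
      rw [Pi.single_eq_of_ne ha]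
    rw [this]
    exact Submodule.zero_mem _

omit [∀ i, FiniteDimensional K (V i)] in
lemma emb_idem {i : ι} {g : V i →ₗ[K] V i} (hg : g ∘ₗ g = g) :
    emb i i g * emb i i g = emb i i g := by
  have h : LinearMap.proj i ∘ₗ LinearMap.single K V i = LinearMap.id := by
    apply LinearMap.ext; intro x; simp
  change LinearMap.single K V i ∘ₗ g ∘ₗ (LinearMap.proj i ∘ₗ LinearMap.single K V i) ∘ₗ g ∘ₗ
    LinearMap.proj i = _
  rw [h, LinearMap.id_comp, ← LinearMap.comp_assoc (LinearMap.proj i) g g, hg]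
  rfl

/-- The component of an element of the algebra. -/
def cmpS (i j : ι) : C.alg →ₗ[K] C.S i j where
  toFun T := ⟨cmp i j T, T.2 i j⟩
  map_add' _ _ := rfl
  map_smul' _ _ := rfl

omit [∀ i, FiniteDimensional K (V i)] in
lemma cmpS_surjective (i j : ι) : Function.Surjective (C.cmpS i j) := by
  rintro ⟨u, hu⟩
  exact ⟨⟨emb i j u, C.emb_mem hu⟩, Subtype.ext (cmp_emb_same i j u)⟩

lemma form_eq {i j : ι} {g : V i →ₗ[K] V i} (hg : g ∈ C.S i i) {g' : V j →ₗ[K] V j}
    (hg' : g' ∈ C.S j j) :
    C.tr.form ⟨emb i i g, C.emb_mem hg⟩ ⟨emb j j g', C.emb_mem hg'⟩ =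
      (C.B i j g g').compl₁₂ (C.cmpS i j) (C.cmpS j i) := by
  apply LinearMap.ext
  intro x
  apply LinearMap.ext
  intro y
  rw [LinearMap.compl₁₂_apply, B_apply, Tr.form_apply, tr_apply]
  change LinearMap.trace K _ ((C.P ∘ₗ LinearMap.single K V i) ∘ₗ (g ∘ₗ (LinearMap.proj i ∘ₗ
    (x : Module.End K _) ∘ₗ LinearMap.single K V j) ∘ₗ g' ∘ₗ LinearMap.proj j ∘ₗ
      (y : Module.End K _))) = _
  rw [P_single, LinearMap.comp_assoc, LinearMap.trace_comp_comm']
  rfl

variable [IsAlgClosed K] [CharZero K]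

/-- **The Cauchy-Schwarz inequality.** -/
theorem rk_B_sq_le {i j : ι} {g : V i →ₗ[K] V i} (hg : g ∈ C.S i i) (hgg : g ∘ₗ g = g)
    {g' : V j →ₗ[K] V j} (hg' : g' ∈ C.S j j) (hgg' : g' ∘ₗ g' = g') :
    rk (C.B i j g g') ^ 2 ≤ rk (C.B i i g g) * rk (C.B j j g' g') := by
  have h1 := C.tr.rk_sq_le (e := ⟨emb i i g, C.emb_mem hg⟩) (f := ⟨emb j j g', C.emb_mem hg'⟩)
    (Subtype.ext (emb_idem hgg)) (Subtype.ext (emb_idem hgg'))
  rwa [C.form_eq hg hg', C.form_eq hg hg, C.form_eq hg' hg',
    rk_comp _ (C.cmpS_surjective i j) (C.cmpS_surjective j i),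
    rk_comp _ (C.cmpS_surjective i i) (C.cmpS_surjective i i),
    rk_comp _ (C.cmpS_surjective j j) (C.cmpS_surjective j j)] at h1

end Cat

end Pool.Agent.Y129.Half
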