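import Pool.Agent.Y129.Half.Iso2

/-!
# The Cauchy-Schwarz inequality for ranks of intersection forms
-/

open CategoryTheory AlgebraicGeometry

universe u v

namespace Pool.Agent.Y129.Half

open Module
open Pool.Agent.H914 Pool.Agent.H914.VarClass Pool.Agent.H914.VarClass.Obj
  Pool.Agent.H914.WeilCohomology

variable {k : Type u} [Field k] {𝒱 : VarClass k} {ops : CycleOps 𝒱}
  {W : WeilCohomology.{u, v} ops} {X Y Z Z' P Q M N Y' P' : 𝒱.Obj}

/-- The dimension of the range of an external product of idempotents. -/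
lemma finrank_extOp {g : Module.End W.K (W.H X)} {h : Module.End W.K (W.H Y)} (hg : g ∘ₗ g = g)
    (hh : h ∘ₗ h = h) : finrank W.K (LinearMap.range (extOp W g h)) =
      finrank W.K (LinearMap.range g) * finrank W.K (LinearMap.range h) := by
  have h1 : extOp W g h ∘ₗ extOp W g h = extOp W g h := by
    have := extOp_mul (W := W) g g h h
    change extOp W g h * extOp W g h = _
    rw [this]
    change extOp W (g ∘ₗ g) (h ∘ₗ h) = _
    rw [hg, hh]
  have h2 := trace_idem h1
  have h3 : LinearMap.trace W.K _ (extOp W g h) = LinearMap.trace W.K _ g *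
      LinearMap.trace W.K _ h := by
    have h4 : extOp W g h = (kappa W X Y).conj (TensorProduct.map g h) := by
      rw [LinearEquiv.conj_apply, extOp, LinearMap.comp_assoc]
    rw [h4, LinearMap.trace_conj', LinearMap.trace_tensorProduct']
  rw [h3, trace_idem hg, trace_idem hh] at h2
  exact_mod_cast h2.symm

lemma Adj.symm {u : W.H X →ₗ[W.K] W.H Y} {u' : W.H Y →ₗ[W.K] W.H X} (h : Adj W u u')
    (hu : Ev W u) (hu' : Ev W u') : Adj W u' u := by
  intro b a
  refine gr_induction (W.isInternal Y) (p := fun b => W.tr X (u' b * a) = W.tr Y (b * u a)) ?_ ?_ b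
  swap
  · intro b b' hb hb'; rw [map_add, add_mul, map_add, hb, hb', add_mul, map_add]
  intro i b hb
  refine gr_induction (W.isInternal X) (p := fun a => W.tr X (u' b * a) = W.tr Y (b * u a)) ?_ ?_ a
  swap
  · intro a a' ha ha'; rw [mul_add, map_add, ha, ha', map_add, mul_add, map_add]
  intro j a ha
  have hb' := PH.of (W := W) hb
  have ha' := PH.of (W := W) ha
  rw [PH.comm (hu' _ _ hb') ha', PH.comm hb' (hu _ _ ha'), map_smul, map_smul, h]

/-- The Poincare pairing as a linear map. -/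
noncomputable def pd (W : WeilCohomology.{u, v} ops) (X : 𝒱.Obj) :
    W.H X →ₗ[W.K] Module.Dual W.K (W.H X) :=
  (LinearMap.mul W.K (W.H X)).compr₂ (W.tr X)

lemma pd_apply (x y : W.H X) : pd W X x y = W.tr X (x * y) := rfl

lemma pd_injective : Function.Injective (pd W X) := by
  rw [← LinearMap.ker_eq_bot, LinearMap.ker_eq_bot']
  intro x hx
  apply W.nondeg
  intro y
  exact congrArg (fun f : Module.Dual W.K (W.H X) => f y) hx

lemma pd_surjective : Function.Surjective (pd W X) :=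
  (LinearMap.injective_iff_surjective_of_finrank_eq_finrank
    (Subspace.dual_finrank_eq).symm).1 pd_injective

lemma Adj.finrank_eq {g' g : Module.End W.K (W.H X)} (h : Adj W g' g) :
    finrank W.K (LinearMap.range g') = finrank W.K (LinearMap.range g) := by
  have h1 : pd W X ∘ₗ g' = g.dualMap ∘ₗ pd W X := by
    apply LinearMap.ext
    intro x
    apply LinearMap.ext
    intro y
    exact h x y
  have h2 : LinearMap.range (g.dualMap ∘ₗ pd W X) = LinearMap.range g.dualMap :=
    LinearMap.range_comp_of_range_eq_top _ (LinearMap.range_eq_top.2 pd_surjective)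
  have h3 : finrank W.K (LinearMap.range (pd W X ∘ₗ g')) = finrank W.K (LinearMap.range g') := by
    rw [LinearMap.range_comp]
    exact (Submodule.equivMapOfInjective _ pd_injective _).finrank_eq.symm
  rw [← h3, h1, h2, LinearMap.finrank_range_dualMap_eq_finrank_range]

lemma Adj.idem {g' g : Module.End W.K (W.H X)} (h : Adj W g' g) (hg : g ∘ₗ g = g) :
    g' ∘ₗ g' = g' := by
  apply LinearMap.ext
  intro x
  apply W.tr_ext
  intro y
  rw [LinearMap.comp_apply, h, h, h]
  exact congrArg (fun f : Module.End W.K (W.H X) => W.tr X (x * f y)) hg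

lemma Adj.one : Adj W (1 : Module.End W.K (W.H X)) 1 := fun _ _ => rfl

lemma Adj.sub {a a' b b' : Module.End W.K (W.H X)} (ha : Adj W a a') (hb : Adj W b b') :
    Adj W (a - b) (a' - b') := by
  intro x y
  rw [LinearMap.sub_apply, sub_mul, map_sub, ha, hb, LinearMap.sub_apply, mul_sub, map_sub]

namespace Sys

variable (S : Sys W)

lemma rk_F_le (u : Module.End W.K (W.H Z)) : rk (S.F Z u) ≤ finrank W.K (LinearMap.range u) := by
  let L : W.H Z →ₗ[W.K] (S.C Z →ₗ[W.K] W.K) :=
    { toFun := fun y => (W.tr Z ∘ₗ LinearMap.mulLeft W.K y) ∘ₗ (S.C Z).subtype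
      map_add' := fun a b => by
        apply LinearMap.ext; intro x
        simp [add_mul]
      map_smul' := fun r a => by
        apply LinearMap.ext; intro x
        simp }
  have h : LinearMap.range (S.F Z u) ≤ (LinearMap.range u).map L := by
    rintro _ ⟨c, rfl⟩
    exact ⟨u c, ⟨c, rfl⟩, rfl⟩
  exact (Submodule.finrank_mono h).trans (Submodule.finrank_map_le _ _)

/-- The rank of the intersection form on the classes of the system. -/
noncomputable def a (Z : 𝒱.Obj) : ℕ := rk (S.F Z 1)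

/-- The rank of the intersection form on the part of the classes on `P × Z` cut out by the
idempotent `g`. -/
noncomputable def r (P : 𝒱.Obj) (g : Module.End W.K (W.H P)) (Z : 𝒱.Obj) : ℕ :=
  rk (S.F (P.prod Z) (extOp W g 1))

lemma r_one : S.r P 1 Z = S.a (P.prod Z) := by rw [r, extOp_one, a]

lemma r_add_le (g h : Module.End W.K (W.H P)) : S.r P (g + h) Z ≤ S.r P g Z + S.r P h Z := by
  have h1 : S.F (P.prod Z) (extOp W (g + h) 1) =
      S.F (P.prod Z) (extOp W g 1) + S.F (P.prod Z) (extOp W h 1) := by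
    apply LinearMap.ext
    intro c
    apply LinearMap.ext
    intro d
    rw [LinearMap.add_apply, LinearMap.add_apply, F_apply, F_apply, F_apply, extOp_add_left,
      LinearMap.add_apply, add_mul, map_add]
  rw [r, h1]
  exact rk_add_le _ _

lemma r_le (g : Module.End W.K (W.H P)) (hg : g ∘ₗ g = g) :
    S.r P g Z ≤ finrank W.K (LinearMap.range g) * finrank W.K (W.H Z) := by
  refine (S.rk_F_le _).trans ?_
  have h1 : (1 : Module.End W.K (W.H Z)) ∘ₗ 1 = 1 := rfl
  rw [finrank_extOp hg h1]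
  have h2 : LinearMap.range (1 : Module.End W.K (W.H Z)) = ⊤ := LinearMap.range_id
  rw [h2, finrank_top]

lemma r_iso (g : Module.End W.K (W.H P)) (θ : Z' ≅ Z) : S.r P g Z' = S.r P g Z := by
  let Θ : P.prod Z' ≅ P.prod Z :=
    { hom := Obj.lift (fst _ _) (snd _ _ ≫ θ.hom)
      inv := Obj.lift (fst _ _) (snd _ _ ≫ θ.inv)
      hom_inv_id := by apply prod_hom_ext <;> simp
      inv_hom_id := by apply prod_hom_ext <;> simp }
  refine S.rk_F_iso Θ fun x => ?_
  have h : (extOp W g (1 : Module.End W.K (W.H Z'))) ∘ₗ (W.map Θ.hom).toLinearMap =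
      (W.map Θ.hom).toLinearMap ∘ₗ (extOp W g (1 : Module.End W.K (W.H Z))) := by
    apply xp_ext
    intro i j p _ z _
    have e1 : Θ.hom ≫ fst _ _ = fst _ _ := Obj.lift_fst _ _
    have e2 : Θ.hom ≫ snd _ _ = snd _ _ ≫ θ.hom := Obj.lift_snd _ _
    have e3 : ∀ p : W.H P, ∀ z : W.H Z, W.map Θ.hom (xp W p z) = xp W p (W.map θ.hom z) := by
      intro p z
      rw [map_xp, e1, e2, W.map_comp, xp_def]
    simp only [LinearMap.comp_apply, AlgHom.toLinearMap_apply, e3, extOp_xp, Module.End.one_apply]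
  exact congrArg (fun f => f x) h

lemma a_iso (θ : Z' ≅ Z) : S.a Z' = S.a Z := S.rk_F_iso θ fun _ => rfl

lemma r_assoc (g : Module.End W.K (W.H P)) :
    S.r (P.prod Q) (extOp W g 1) Z = S.r P g (Q.prod Z) :=
  S.rk_F_iso (θ₃ P Q Z) fun x => θ₃_op g x

variable [IsAlgClosed W.K]

/-- **The Cauchy-Schwarz inequality.** -/
theorem cs {g g' : Module.End W.K (W.H P)} (hg : g ∈ S.Op P P) (hgg : g ∘ₗ g = g)
    (hadj : Adj W g' g) (Y : 𝒱.Obj) :
    S.r P g (Y.prod Y) ^ 2 ≤ S.r (P.prod P) (extOp W g' g) (Y.prod Y) * S.a (Y.prod Y) := by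
  let X : Fin 2 → 𝒱.Obj := ![P.prod Y, Y]
  have h1 : extOp W g (1 : Module.End W.K (W.H Y)) ∈ S.Op (P.prod Y) (P.prod Y) :=
    Op.ext hg Op.id
  have h2 : extOp W g (1 : Module.End W.K (W.H Y)) ∘ₗ extOp W g 1 = extOp W g 1 := by
    have := extOp_mul (W := W) g g (1 : Module.End W.K (W.H Y)) 1
    change extOp W g 1 * extOp W g 1 = _
    rw [this, mul_one]
    change extOp W (g ∘ₗ g) 1 = _
    rw [hgg]
  have key := (S.cat X).rk_B_sq_le (i := 0) (j := 1) (g := extOp W g 1) h1 h2
    (g' := (LinearMap.id : W.H Y →ₗ[W.K] W.H Y)) Op.id rfl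
  have e01 := S.cat_B X 0 1 (extOp W g 1) (LinearMap.id : W.H Y →ₗ[W.K] W.H Y)
  have e00 := S.cat_B X 0 0 (extOp W g 1) (extOp W g 1)
  have e11 := S.cat_B X 1 1 (LinearMap.id : W.H Y →ₗ[W.K] W.H Y)
    (LinearMap.id : W.H Y →ₗ[W.K] W.H Y)
  have f01 : rk (A := S.Op Y (P.prod Y)) (B := S.Op (P.prod Y) Y)
      (S.BO (P.prod Y) Y (extOp W g 1) LinearMap.id) = S.r P g (Y.prod Y) := by
    rw [S.rk_BO (Op.ev h1) Ev.id (g'' := 1) Adj.one]
    exact S.rk_F_iso (θ₁ Y P Y) fun x => θ₁_op (Op.ev hg) x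
  have f00 : rk (A := S.Op (P.prod Y) (P.prod Y)) (B := S.Op (P.prod Y) (P.prod Y))
      (S.BO (P.prod Y) (P.prod Y) (extOp W g 1) (extOp W g 1)) =
      S.r (P.prod P) (extOp W g' g) (Y.prod Y) := by
    rw [S.rk_BO (Op.ev h1) (Op.ev h1) (g'' := extOp W g' 1)
      (hadj.extOp Adj.one (Op.ev hg) Ev.id)]
    exact S.rk_F_iso (θ₂ P Y P Y) fun x => θ₂_op (Op.ev hg) x
  have f11 : rk (A := S.Op Y Y) (B := S.Op Y Y)
      (S.BO Y Y LinearMap.id LinearMap.id) = S.a (Y.prod Y) := by
    rw [S.rk_BO Ev.id Ev.id (g'' := 1) Adj.one]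
    change rk (S.F (Y.prod Y) (extOp W 1 1)) = _
    rw [extOp_one, a]
  rw [← f01, ← f00, ← f11]
  exact key

end Sys

end Pool.Agent.Y129.Half
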