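import Mathlib

/-!
# Log-convex sequences bounded by a geometric sequence
-/

namespace Pool.Agent.Y129.Half

/-- The ratios of a log-convex sequence are nondecreasing. -/
lemma ratio_mono {α : ℕ → ℕ} (hpos : ∀ l, 0 < α l) (hconv : ∀ l, α (l + 1) ^ 2 ≤ α (l + 2) * α l)
    {c : ℝ} {l : ℕ} (h : c * α l ≤ α (l + 1)) {n : ℕ} (hn : l ≤ n) :
    c * α n ≤ α (n + 1) := by
  induction n, hn using Nat.le_induction with
  | base => exact h
  | succ n hn ih =>
    have h1 : (0 : ℝ) < α n := by exact_mod_cast hpos n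
    have h2 : (0 : ℝ) < α (n + 1) := by exact_mod_cast hpos (n + 1)
    have h3 : (α (n + 1) : ℝ) ^ 2 ≤ α (n + 2) * α n := by exact_mod_cast hconv n
    have h4 : c * α (n + 1) * α n ≤ α (n + 2) * α n := by
      calc c * α (n + 1) * α n = (c * α n) * α (n + 1) := by ring
        _ ≤ α (n + 1) * α (n + 1) := by
          exact mul_le_mul_of_nonneg_right ih h2.le
        _ = (α (n + 1) : ℝ) ^ 2 := by ring
        _ ≤ _ := h3
    exact le_of_mul_le_mul_right h4 h1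

/-- Either all ratios are bounded by a number less than `B`, or they tend to `B` from below. -/
lemma ratio_dichotomy {α : ℕ → ℕ} (hpos : ∀ l, 0 < α l)
    (hconv : ∀ l, α (l + 1) ^ 2 ≤ α (l + 2) * α l) (B : ℝ) :
    (∃ c : ℝ, 0 ≤ c ∧ c < B ∧ ∀ l, (α (l + 1) : ℝ) ≤ c * α l) ∨
      (∀ c : ℝ, 0 ≤ c → c < B → ∃ l₀, ∀ l ≥ l₀, c * α l ≤ α (l + 1)) := by
  by_cases h : ∃ c : ℝ, 0 ≤ c ∧ c < B ∧ ∀ l, (α (l + 1) : ℝ) ≤ c * α l
  · exact Or.inl h
  · right
    intro c hc hcB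
    push Not at h
    obtain ⟨l, hl⟩ := h c hc hcB
    exact ⟨l, fun n hn => ratio_mono hpos hconv hl.le hn⟩

lemma ratio_pow {α : ℕ → ℕ} {c : ℝ} (hc : 0 ≤ c) {l₀ : ℕ} (h : ∀ l ≥ l₀, c * α l ≤ α (l + 1))
    (j : ℕ) : ∀ l ≥ l₀, c ^ j * α l ≤ α (l + j) := by
  induction j with
  | zero => intro l _; simp
  | succ j ih =>
    intro l hl
    calc c ^ (j + 1) * α l = c * (c ^ j * α l) := by ring
      _ ≤ c * α (l + j) := mul_le_mul_of_nonneg_left (ih l hl) hc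
      _ ≤ α (l + (j + 1)) := h (l + j) (by omega)

lemma geom_bound {α : ℕ → ℕ} {c : ℝ} (hc : 0 ≤ c) (h : ∀ l, (α (l + 1) : ℝ) ≤ c * α l) (l : ℕ) :
    (α l : ℝ) ≤ c ^ l * α 0 := by
  induction l with
  | zero => simp
  | succ l ih =>
    calc (α (l + 1) : ℝ) ≤ c * α l := h l
      _ ≤ c * (c ^ l * α 0) := mul_le_mul_of_nonneg_left ih hc
      _ = _ := by ring

open Filter Topology in
/-- A geometric sequence times a polynomial is negligible with respect to a larger geometric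
sequence. -/
lemma exp_lt {c B : ℝ} (hc : 0 ≤ c) (hB : c < B) (m : ℕ) {C ε : ℝ} (hε : 0 < ε) :
    ∃ l₀ : ℕ, ∀ l ≥ l₀, C * c ^ l * (l + 2 : ℝ) ^ m ≤ ε * B ^ l := by
  have hB0 : 0 < B := lt_of_le_of_lt hc hB
  have h1 : Tendsto (fun n : ℕ => (n : ℝ) ^ m * (c / B) ^ n) atTop (𝓝 0) := by
    apply tendsto_pow_const_mul_const_pow_of_abs_lt_one
    rw [abs_of_nonneg (div_nonneg hc hB0.le), div_lt_one hB0]
    exact hB
  rcases hc.eq_or_lt with hc0 | hc0
  · refine ⟨1, fun l hl => ?_⟩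
    rw [← hc0, zero_pow (by omega), mul_zero, zero_mul]
    positivity
  · have h2 : Tendsto (fun n : ℕ => |C| * ((c / B) ^ 2)⁻¹ * (((n + 2 : ℕ) : ℝ) ^ m *
        (c / B) ^ (n + 2))) atTop (𝓝 0) := by
      have := (h1.comp (tendsto_add_atTop_nat 2)).const_mul (|C| * ((c / B) ^ 2)⁻¹)
      rw [mul_zero] at this
      exact this
    obtain ⟨l₀, hl₀⟩ := (eventually_atTop.1 (h2.eventually (gt_mem_nhds hε)))
    refine ⟨l₀, fun l hl => ?_⟩
    have h3 := hl₀ l hl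
    have hcB : 0 < c / B := div_pos hc0 hB0
    have h4 : |C| * ((c / B) ^ 2)⁻¹ * (((l + 2 : ℕ) : ℝ) ^ m * (c / B) ^ (l + 2)) =
        |C| * ((l + 2 : ℝ)) ^ m * (c / B) ^ l := by
      push_cast
      rw [pow_add]
      field_simp
    rw [h4, div_pow, mul_div_assoc', div_lt_iff₀ (pow_pos hB0 l)] at h3
    calc C * c ^ l * (l + 2 : ℝ) ^ m ≤ |C| * c ^ l * (l + 2 : ℝ) ^ m := by
          gcongr
          exact le_abs_self C
      _ = |C| * (l + 2 : ℝ) ^ m * c ^ l := by ring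
      _ ≤ ε * B ^ l := h3.le

end Pool.Agent.Y129.Half
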