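import Pool.Agent.Y129.Half.Num
import Pool.Agent.Y129.Half.Seq

/-!
# Chains of stable subspaces, and nilpotency of numerically trivial operators
-/

open CategoryTheory AlgebraicGeometry

universe u v

namespace Pool.Agent.Y129.Half

open Module
open Pool.Agent.H914 Pool.Agent.H914.VarClass Pool.Agent.H914.VarClass.Obj
  Pool.Agent.H914.WeilCohomology

open Filter Topology in
lemma exists_close {B : ℝ} (hB : 0 < B) (j : ℕ) {ε : ℝ} (hε : 0 < ε) :
    ∃ c : ℝ, 0 ≤ c ∧ c < B ∧ B ^ j - ε < c ^ j := by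
  have h1 : Tendsto (fun c : ℝ => c ^ j) (𝓝[<] B) (𝓝 (B ^ j)) :=
    ((continuous_pow j).tendsto B).mono_left nhdsWithin_le_nhds
  have h2 : ∀ᶠ c in 𝓝[<] B, B ^ j - ε < c ^ j := h1.eventually (lt_mem_nhds (by linarith))
  have h3 : ∀ᶠ c in 𝓝[<] B, c ∈ Set.Iio B := self_mem_nhdsWithin
  have h4 : ∀ᶠ c in 𝓝[<] B, 0 < c := (nhdsWithin_le_nhds (a := B)) (lt_mem_nhds hB)
  obtain ⟨c, hc⟩ := (h2.and (h3.and h4)).exists
  exact ⟨c, hc.2.2.le, hc.2.1, hc.1⟩

namespace Sys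

variable {k : Type u} [Field k] {𝒱 : VarClass k} {ops : CycleOps 𝒱}
  {W : WeilCohomology.{u, v} ops} (S : Sys W) {P Q Z : 𝒱.Obj}

lemma swap_op {g : Module.End W.K (W.H P)} (hg : Ev W g) (x : W.H (P.prod Z)) :
    extOp W (1 : Module.End W.K (W.H Z)) g (W.map (prodComm Z P).hom x) =
      W.map (prodComm Z P).hom (extOp W g (1 : Module.End W.K (W.H Z)) x) := by
  have e1 : (prodComm Z P).hom ≫ fst _ _ = snd _ _ := Obj.lift_fst _ _
  have e2 : (prodComm Z P).hom ≫ snd _ _ = fst _ _ := Obj.lift_snd _ _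
  have e3 : ∀ {i j : ℕ} {p : W.H P}, p ∈ PH W P i → ∀ {z : W.H Z}, z ∈ PH W Z j →
      W.map (prodComm Z P).hom (xp W p z) = (-1 : W.K) ^ (i * j) • xp W z p := by
    intro i j p hp z hz
    rw [map_xp, e1, e2, PH.comm (PH.map _ hp) (PH.map _ hz), xp_def]
  have h : (extOp W (1 : Module.End W.K (W.H Z)) g) ∘ₗ
      (W.map (prodComm Z P).hom).toLinearMap = (W.map (prodComm Z P).hom).toLinearMap ∘ₗ
        extOp W g (1 : Module.End W.K (W.H Z)) := by
    apply xp_ext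
    intro i j p hp z hz
    simp only [LinearMap.comp_apply, AlgHom.toLinearMap_apply, extOp_xp, Module.End.one_apply]
    rw [e3 hp hz, e3 (hg _ _ hp) hz, map_smul, extOp_xp, Module.End.one_apply]
  exact congrArg (fun f => f x) h

lemma rk_BO_r {g : Module.End W.K (W.H P)} (hg : Ev W g) :
    rk (A := S.Op Z P) (B := S.Op P Z) (S.BO P Z g LinearMap.id) = S.r P g Z := by
  rw [S.rk_BO hg Ev.id (g'' := 1) Adj.one]
  exact S.rk_F_iso (prodComm Z P) fun x => swap_op hg x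

/-- **Chains of stable subspaces.** -/
theorem key_chain {T : Sys W} (hST : ∀ X, S.C X ≤ T.C X) (P Z : 𝒱.Obj)
    (M : ℕ → Submodule W.K (W.H P)) (hM : ∀ n, ∀ a ∈ S.Op P P, ∀ m ∈ M n, a m ∈ M n) (l : ℕ)
    (hlt : ∀ n < l, M n < M (n + 1)) (hT : M l ≤ T.C P) :
    ∃ g : ℕ → Module.End W.K (W.H P),
      (∀ n < l, g n ∈ S.Op P P ∧ g n ∘ₗ g n = g n ∧ g n ≠ 0) ∧
      ∑ n ∈ Finset.range l, S.r P (g n) Z ≤ finrank W.K (T.C Z) := by
  let X : Fin 2 → 𝒱.Obj := ![P, Z]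
  obtain ⟨g, hg, hs⟩ := (S.cat X).chain (i := 0) M hM l hlt 1
  refine ⟨g, hg, ?_⟩
  have h1 : ∑ n ∈ Finset.range l, S.r P (g n) Z = ∑ n ∈ Finset.range l,
      rk (A := (S.cat X).S 0 1) (B := (S.cat X).S 1 0) ((S.cat X).B 0 1 (g n) LinearMap.id) := by
    refine Finset.sum_congr rfl fun n hn => ?_
    exact (S.rk_BO_r (P := P) (Z := Z) (g := g n)
      (Op.ev (S := S) (hg n (Finset.mem_range.1 hn)).1)).symm
  rw [h1]
  have h3 : (S.cat X).gen 0 1 (M l) ≤ (T.C Z : Submodule W.K (W.H Z)) := by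
    refine Submodule.span_le.2 ?_
    rintro _ ⟨v, hv, m, hm, rfl⟩
    exact Op.apply (S := S) (X := P) (Y := Z) hST (T := T) hv (hT hm)
  refine hs.trans ?_
  exact Submodule.finrank_mono (R := W.K) (M := W.H Z) h3

/-- A non-nilpotent numerically trivial operator yields an idempotent. -/
lemma exists_idem {x : Module.End W.K (W.H P)} (hx : x ∈ S.NOp P P) (hn : ¬ IsNilpotent x)
    (Z : 𝒱.Obj) : ∃ g ∈ S.Op P P, g ∘ₗ g = g ∧ g ≠ 0 ∧ S.r P g Z = 0 := by
  let X : Fin 2 → 𝒱.Obj := ![P, Z]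
  obtain ⟨g, hg, hgg, h0, hB⟩ := (S.cat X).exists_idem (i := 0) (x := x) (NOp.op hx)
    (fun y hy => NOp.trace hx hy) hn
  refine ⟨g, hg, hgg, h0, ?_⟩
  have h2 := S.rk_BO_r (P := P) (Z := Z) (g := g) (Op.ev (S := S) hg)
  have h1 : S.BO P Z g LinearMap.id = 0 := hB 1
  rw [h1, rk] at h2
  refine Eq.trans h2.symm ?_
  simp

lemma finrank_compl {g : Module.End W.K (W.H P)} (hg : g ∘ₗ g = g) :
    (1 - g) ∘ₗ (1 - g) = 1 - g ∧
    finrank W.K (LinearMap.range (1 - g)) + finrank W.K (LinearMap.range g) =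
      finrank W.K (W.H P) := by
  have hG : g * g = g := hg
  have hG' : (1 - g) ∘ₗ (1 - g) = 1 - g := by
    change (1 - g) * (1 - g) = 1 - g
    rw [mul_sub, sub_mul, sub_mul, hG]
    simp
  refine ⟨hG', ?_⟩
  have e1 := trace_idem hG'
  have e2 := trace_idem (K := W.K) (f := g) hG
  rw [map_sub, e2, Module.End.one_eq_id, LinearMap.trace_id] at e1
  have e3 : ((finrank W.K (LinearMap.range (1 - g)) + finrank W.K (LinearMap.range g) : ℕ) :
      W.K) = ((finrank W.K (W.H P) : ℕ) : W.K) := by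
    rw [Nat.cast_add]
    have : (finrank W.K (LinearMap.range (1 - g)) : W.K) =
      ((finrank W.K (W.H P) : ℕ) : W.K) -
        (finrank W.K (LinearMap.range g) : W.K) := e1.symm
    rw [this]
    ring
  exact_mod_cast e3

lemma finrank_range_pos {g : Module.End W.K (W.H P)} (h0 : g ≠ 0) :
    1 ≤ finrank W.K (LinearMap.range g) := by
  rw [Nat.one_le_iff_ne_zero]
  intro h
  apply h0
  have := Submodule.finrank_eq_zero.1 h
  exact LinearMap.range_eq_bot.1 this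

lemma extOp_pow (x : Module.End W.K (W.H P)) (n : ℕ) :
    extOp W x (1 : Module.End W.K (W.H Q)) ^ n = extOp W (x ^ n) 1 := by
  induction n with
  | zero => rw [pow_zero, pow_zero, extOp_one]
  | succ n ih => rw [pow_succ, ih, extOp_mul, pow_succ, mul_one]

variable [IsAlgClosed W.K]

/-- If the ratios of the sequence `al` tend to the square of the Betti number, all numerically
trivial operators on `P` are nilpotent. -/
lemma nilpotent_of {X : 𝒱.Obj} (hpos : ∀ l, 0 < S.al X l)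
    (hB : ∀ c : ℝ, 0 ≤ c → c < (finrank W.K (W.H X) : ℝ) ^ 2 →
      ∃ l₀, ∀ l ≥ l₀, c * S.al X l ≤ S.al X (l + 1))
    (hX : 0 < finrank W.K (W.H X)) {j : ℕ}
    (hP : ∀ l, S.a (P.prod ((pw X l).prod (pw X l))) = S.al X (l + j))
    (hd : finrank W.K (W.H P) = finrank W.K (W.H X) ^ (2 * j))
    {x : Module.End W.K (W.H P)} (hx : x ∈ S.NOp P P) : IsNilpotent x := by
  by_contra hn
  have hX' : (0 : ℝ) < (finrank W.K (W.H X) : ℝ) ^ 2 := by positivity
  obtain ⟨c, hc0, hcB, hc⟩ := exists_close hX' j one_pos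
  obtain ⟨l₀, hl₀⟩ := hB c hc0 hcB
  have h1 := ratio_pow hc0 hl₀ j l₀ le_rfl
  obtain ⟨g, hg, hgg, h0, hr⟩ := S.exists_idem hx hn ((pw X l₀).prod (pw X l₀))
  have h2 := S.r_add_le (Z := (pw X l₀).prod (pw X l₀)) g (1 - g)
  rw [add_sub_cancel, r_one, hr, zero_add, hP] at h2
  obtain ⟨hg', hdim⟩ := finrank_compl hgg
  have h3 := S.r_le_rank (Submodule.sub_mem _ Op.id hg) hg' (pw X l₀)
  have h4 := finrank_range_pos h0
  have h5 : S.al X (l₀ + j) + S.al X l₀ ≤ finrank W.K (W.H X) ^ (2 * j) * S.al X l₀ := by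
    have h6 : S.a ((pw X l₀).prod (pw X l₀)) = S.al X l₀ := rfl
    rw [h6] at h3
    have h7 : finrank W.K (LinearMap.range (1 - g)) + 1 ≤ finrank W.K (W.H X) ^ (2 * j) := by
      rw [← hd, ← hdim]; omega
    calc S.al X (l₀ + j) + S.al X l₀ ≤
        finrank W.K (LinearMap.range (1 - g)) * S.al X l₀ + S.al X l₀ :=
          Nat.add_le_add_right (h2.trans h3) _
      _ = (finrank W.K (LinearMap.range (1 - g)) + 1) * S.al X l₀ := by ring
      _ ≤ _ := Nat.mul_le_mul_right _ h7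
  have h8 : (S.al X (l₀ + j) : ℝ) + S.al X l₀ ≤
      ((finrank W.K (W.H X) : ℝ) ^ 2) ^ j * S.al X l₀ := by
    rw [← pow_mul]
    exact_mod_cast h5
  have h9 : (0 : ℝ) < S.al X l₀ := by exact_mod_cast hpos l₀
  nlinarith [mul_lt_mul_of_pos_right hc h9]

/-- All numerically trivial operators on powers are nilpotent. -/
lemma nilpotent_pw {X : 𝒱.Obj} (hpos : ∀ l, 0 < S.al X l)
    (hB : ∀ c : ℝ, 0 ≤ c → c < (finrank W.K (W.H X) : ℝ) ^ 2 →
      ∃ l₀, ∀ l ≥ l₀, c * S.al X l ≤ S.al X (l + 1))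
    (hX : 0 < finrank W.K (W.H X)) (m : ℕ)
    (hinj : ∀ x : W.H (pw X m), xp W x (1 : W.H (pw X m)) = 0 → x = 0)
    {x : Module.End W.K (W.H (pw X m))} (hx : x ∈ S.NOp (pw X m) (pw X m)) : IsNilpotent x := by
  have hE := NOp.ext_left (Q := pw X m) hx
  have h1 : ∀ l, S.a (((pw X m).prod (pw X m)).prod ((pw X l).prod (pw X l))) =
      S.al X (l + (m + 1)) := by
    intro l
    rw [S.a_iso (prodCongr (pwAdd X m m) (Iso.refl _))]
    exact S.a_pw X (by ring)
  have h2 : finrank W.K (W.H ((pw X m).prod (pw X m))) = finrank W.K (W.H X) ^ (2 * (m + 1)) := by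
    rw [finrank_prod, finrank_pw, ← pow_add]
    congr 1
    ring
  obtain ⟨n, hn⟩ := S.nilpotent_of hpos hB hX h1 h2 hE
  refine ⟨n, ?_⟩
  rw [extOp_pow] at hn
  apply LinearMap.ext
  intro y
  apply hinj
  have h3 := congrArg (fun f : Module.End W.K (W.H ((pw X m).prod (pw X m))) =>
    f (xp W y 1)) hn
  simp only [extOp_xp, LinearMap.zero_apply, Module.End.one_apply] at h3
  exact h3

end Sys

end Pool.Agent.Y129.Half
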