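import Mathlib

/-!
# The commutant of the permutations of the letters on the space spanned by words
-/

namespace Pool.Agent.Y129.Half

open Module

lemma exists_perm {N : ℕ} {α : Type*} [DecidableEq α] (w w' : Fin N → α)
    (h : ∀ a, Fintype.card {i // w i = a} = Fintype.card {i // w' i = a}) :
    ∃ σ : Equiv.Perm (Fin N), w = w' ∘ σ := by
  let e : (Σ a, {i // w i = a}) ≃ (Σ a, {i // w' i = a}) :=
    Equiv.sigmaCongrRight fun a => Fintype.equivOfCardEq (h a)
  refine ⟨(Equiv.sigmaFiberEquiv w).symm.trans (e.trans (Equiv.sigmaFiberEquiv w')), ?_⟩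
  funext i
  simp only [Function.comp_apply, Equiv.trans_apply]
  have h1 : ∀ s : (Σ a, {i // w i = a}), w' ((Equiv.sigmaFiberEquiv w') (e s)) = s.1 := by
    rintro ⟨a, x⟩
    exact (Fintype.equivOfCardEq (h a) x).2
  rw [h1]
  rfl

variable {K M ι : Type*} [Field K] [AddCommGroup M] [Module K M] [FiniteDimensional K M]
  [Fintype ι] [DecidableEq ι] {N : ℕ}

/-- The numbers of occurrences of the pairs of letters. -/
def cnt (p : (Fin N → ι) × (Fin N → ι)) : ι × ι → Fin (N + 1) := fun a =>
  ⟨Fintype.card {i // (p.1 i, p.2 i) = a}, by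
    have := Fintype.card_subtype_le fun i : Fin N => (p.1 i, p.2 i) = a
    rw [Fintype.card_fin] at this
    omega⟩

lemma cnt_eq {p q : (Fin N → ι) × (Fin N → ι)} (h : cnt p = cnt q) :
    ∃ σ : Equiv.Perm (Fin N), p.1 = q.1 ∘ σ ∧ p.2 = q.2 ∘ σ := by
  obtain ⟨σ, hσ⟩ := exists_perm (fun i => (p.1 i, p.2 i)) (fun i => (q.1 i, q.2 i)) fun a => by
    have h1 := congrArg Fin.val (congrFun h a)
    unfold cnt at h1
    convert h1
  refine ⟨σ, ?_, ?_⟩
  · funext i; exact congrArg Prod.fst (congrFun hσ i)
  · funext i; exact congrArg Prod.snd (congrFun hσ i)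

/-- **The dimension of the commutant of the permutations.** -/
theorem commutant_le (e : Basis (Fin N → ι) K M) (P : Equiv.Perm (Fin N) → Module.End K M)
    (hP : ∀ σ w, ∃ s : K, s ≠ 0 ∧ P σ (e (w ∘ σ)) = s • e w) (D : Submodule K (Module.End K M))
    (hD : ∀ u ∈ D, ∀ σ m, u (P σ m) = P σ (u m)) :
    finrank K D ≤ (N + 1) ^ (Fintype.card ι ^ 2) := by
  classical
  choose s hs0 hs using hP
  -- the matrix entries are permuted up to nonzero scalars
  have key : ∀ u ∈ D, ∀ (σ : Equiv.Perm (Fin N)) (x w : Fin N → ι),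
      e.repr (u (e (w ∘ σ))) (x ∘ σ) = 0 → e.repr (u (e w)) x = 0 := by
    intro u hu σ x w h
    have h1 : s σ w • u (e w) = P σ (u (e (w ∘ σ))) := by
      rw [← hD u hu, hs, map_smul]
    have h2 : u (e (w ∘ σ)) = ∑ y, (e.repr (u (e (w ∘ σ))) y) • e y := (e.sum_repr _).symm
    have h3 : e.repr (P σ (u (e (w ∘ σ)))) x =
        ∑ y, (e.repr (u (e (w ∘ σ))) y) * (e.repr (P σ (e y)) x) := by
      conv_lhs => rw [h2]
      rw [map_sum, map_sum, Finsupp.coe_finsetSum, Finset.sum_apply]
      refine Finset.sum_congr rfl fun y _ => ?_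
      rw [map_smul, map_smul, Finsupp.smul_apply, smul_eq_mul]
    have h4 : ∀ y, (e.repr (u (e (w ∘ σ))) y) * (e.repr (P σ (e y)) x) = 0 := by
      intro y
      have h5 : y = (y ∘ σ.symm) ∘ σ := by
        funext i
        simp
      have h6 : P σ (e y) = s σ (y ∘ σ.symm) • e (y ∘ σ.symm) := by
        conv_lhs => rw [h5]
        exact hs σ _
      by_cases hy : y ∘ σ.symm = x
      · have : y = x ∘ σ := by rw [← hy]; exact h5
        rw [this, h, zero_mul]
      · rw [h6, map_smul, Finsupp.smul_apply, e.repr_self, Finsupp.single_eq_of_ne (Ne.symm hy),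
          smul_zero, mul_zero]
    rw [Finset.sum_eq_zero fun y _ => h4 y] at h3
    rw [← h1, map_smul, Finsupp.smul_apply, smul_eq_mul] at h3
    exact (mul_eq_zero.1 h3).resolve_left (hs0 σ w)
  let Λ : D →ₗ[K] ((ι × ι → Fin (N + 1)) → K) :=
    { toFun := fun u f => if h : ∃ p : (Fin N → ι) × (Fin N → ι), cnt p = f then
        e.repr ((u : Module.End K M) (e h.choose.2)) h.choose.1 else 0
      map_add' := fun u v => by
        funext f
        rw [Pi.add_apply]
        split_ifs with h
        · simp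
        · simp
      map_smul' := fun r u => by
        funext f
        rw [Pi.smul_apply]
        split_ifs with h
        · simp
        · simp }
  have hΛ : Function.Injective Λ := by
    rw [← LinearMap.ker_eq_bot, LinearMap.ker_eq_bot']
    intro u hu
    apply Subtype.ext
    apply e.ext
    intro w
    apply e.repr.injective
    ext x
    rw [ZeroMemClass.coe_zero, LinearMap.zero_apply, map_zero, Finsupp.zero_apply]
    have hex : ∃ p : (Fin N → ι) × (Fin N → ι), cnt p = cnt (x, w) := ⟨_, rfl⟩
    have h1 : Λ u (cnt (x, w)) =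
        e.repr ((u : Module.End K M) (e hex.choose.2)) hex.choose.1 := by
      change (if h : ∃ p : (Fin N → ι) × (Fin N → ι), cnt p = cnt (x, w) then
        e.repr ((u : Module.End K M) (e h.choose.2)) h.choose.1 else 0) = _
      rw [dif_pos hex]
    rw [hu, Pi.zero_apply] at h1
    obtain ⟨σ, h2, h3⟩ := cnt_eq hex.choose_spec
    rw [h2, h3] at h1
    exact key u u.2 σ x w h1.symm
  have h := LinearMap.finrank_le_finrank_of_injective hΛ
  rw [Module.finrank_fintype_fun_eq_card, Fintype.card_fun, Fintype.card_fin,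
    Fintype.card_prod, ← sq] at h
  exact h

end Pool.Agent.Y129.Half
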