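import Pool.Agent.Y129.Half.Low
import Pool.Agent.Y129.Half.Words
import Pool.Agent.Y129.Half.Cent

/-!
# Growth of the number of classes on the powers of a variety
-/

open CategoryTheory AlgebraicGeometry

universe u v

set_option linter.unusedSectionVars false

namespace Pool.Agent.Y129.Half

open Module
open Pool.Agent.H914 Pool.Agent.H914.VarClass Pool.Agent.H914.VarClass.Obj
  Pool.Agent.H914.WeilCohomology

variable {k : Type u} [Field k] {𝒱 : VarClass k} {ops : CycleOps 𝒱}
  {W : WeilCohomology.{u, v} ops} {P Q Z Z' P' X : 𝒱.Obj}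

section Cat

/-- The projection to the first factors. -/
noncomputable def pfst (X : 𝒱.Obj) (n : ℕ) : pw X (n + 1) ⟶ pw X n := fst (pw X n) X

/-- The projection to the last factor. -/
noncomputable def psnd (X : 𝒱.Obj) (n : ℕ) : pw X (n + 1) ⟶ X := snd (pw X n) X

/-- The morphism with given components. -/
noncomputable def plift {n : ℕ} (f : Z ⟶ pw X n) (g : Z ⟶ X) : Z ⟶ pw X (n + 1) := Obj.lift f g

lemma plift_fst {n : ℕ} (f : Z ⟶ pw X n) (g : Z ⟶ X) : plift f g ≫ pfst X n = f :=
  Obj.lift_fst f g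

lemma plift_snd {n : ℕ} (f : Z ⟶ pw X n) (g : Z ⟶ X) : plift f g ≫ psnd X n = g :=
  Obj.lift_snd f g

lemma pext {n : ℕ} {f g : Z ⟶ pw X (n + 1)} (h1 : f ≫ pfst X n = g ≫ pfst X n)
    (h2 : f ≫ psnd X n = g ≫ psnd X n) : f = g := prod_hom_ext h1 h2

/-- The projections of a power. -/
noncomputable def prj (X : 𝒱.Obj) : ∀ n, Fin (n + 1) → (pw X n ⟶ X)
  | 0, _ => 𝟙 X
  | n + 1, i => Fin.lastCases (motive := fun _ => pw X (n + 1) ⟶ X) (psnd X n)
      (fun j => pfst X n ≫ prj X n j) i

lemma prj_zero (i : Fin 1) : prj X 0 i = 𝟙 X := rfl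

lemma prj_last (n : ℕ) : prj X (n + 1) (Fin.last _) = psnd X n := by
  rw [prj, Fin.lastCases_last]

lemma prj_castSucc (n : ℕ) (i : Fin (n + 1)) :
    prj X (n + 1) i.castSucc = pfst X n ≫ prj X n i := by
  rw [prj, Fin.lastCases_castSucc]

/-- The morphism to a power given by its components. -/
noncomputable def liftN (X : 𝒱.Obj) : ∀ n, (Fin (n + 1) → (Z ⟶ X)) → (Z ⟶ pw X n)
  | 0, f => f 0
  | n + 1, f => plift (liftN X n fun j => f j.castSucc) (f (Fin.last _))

lemma liftN_prj : ∀ (n : ℕ) (f : Fin (n + 1) → (Z ⟶ X)) (i : Fin (n + 1)),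
    liftN X n f ≫ prj X n i = f i
  | 0, f, i => by
    have : i = 0 := by omega
    subst this
    exact Category.comp_id (f 0)
  | n + 1, f, i => by
    refine Fin.lastCases ?_ (fun j => ?_) i
    · rw [prj_last, liftN, plift_snd]
    · rw [prj_castSucc, liftN, ← Category.assoc, plift_fst, liftN_prj n]

lemma hom_ext_prj : ∀ (n : ℕ) {f g : Z ⟶ pw X n}, (∀ i, f ≫ prj X n i = g ≫ prj X n i) → f = g
  | 0, f, g, h => by
    have := h 0
    rw [prj_zero] at this
    exact (Category.comp_id f).symm.trans (this.trans (Category.comp_id g))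
  | n + 1, f, g, h => by
    apply pext
    · apply hom_ext_prj n
      intro i
      rw [Category.assoc, Category.assoc, ← prj_castSucc]
      exact h _
    · rw [← prj_last]
      exact h _

/-- The action of a permutation on a power. -/
noncomputable def tau (X : 𝒱.Obj) (n : ℕ) (σ : Equiv.Perm (Fin (n + 1))) : pw X n ⟶ pw X n :=
  liftN X n fun i => prj X n (σ i)

lemma tau_prj (n : ℕ) (σ : Equiv.Perm (Fin (n + 1))) (i : Fin (n + 1)) :
    tau X n σ ≫ prj X n i = prj X n (σ i) := liftN_prj n _ i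

lemma tau_one (n : ℕ) : tau X n 1 = 𝟙 _ := by
  apply hom_ext_prj
  intro i
  rw [tau_prj, Category.id_comp]
  rfl

lemma tau_mul (n : ℕ) (σ ρ : Equiv.Perm (Fin (n + 1))) :
    tau X n (σ * ρ) = tau X n σ ≫ tau X n ρ := by
  apply hom_ext_prj
  intro i
  rw [tau_prj, Category.assoc, tau_prj, tau_prj]
  rfl

end Cat

/-- A product of homogeneous classes does not depend on the order up to sign. -/
lemma prod_perm {l l' : List (W.H Z)} (h : l.Perm l') (hl : ∀ x ∈ l, ∃ a, x ∈ PH W Z a) :
    ∃ s : W.K, s ≠ 0 ∧ l.prod = s • l'.prod := by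
  induction h with
  | nil => exact ⟨1, one_ne_zero, (one_smul _ _).symm⟩
  | cons x _ ih =>
    obtain ⟨s, hs, e⟩ := ih fun y hy => hl y (List.mem_cons_of_mem _ hy)
    exact ⟨s, hs, by rw [List.prod_cons, List.prod_cons, e, mul_smul_comm]⟩
  | swap x y l =>
    obtain ⟨a, ha⟩ := hl y (by simp)
    obtain ⟨b, hb⟩ := hl x (by simp)
    refine ⟨(-1) ^ (a * b), pow_ne_zero _ (neg_ne_zero.2 one_ne_zero), ?_⟩
    rw [List.prod_cons, List.prod_cons, List.prod_cons, List.prod_cons, ← mul_assoc,
      PH.comm ha hb, smul_mul_assoc, mul_assoc]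
  | trans h1 _ ih1 ih2 =>
    obtain ⟨s, hs, e⟩ := ih1 hl
    obtain ⟨s', hs', e'⟩ := ih2 fun y hy => hl y (h1.mem_iff.2 hy)
    exact ⟨s * s', mul_ne_zero hs hs', by rw [e, e', smul_smul]⟩

/-- There is a basis consisting of homogeneous classes. -/
lemma exists_hbasis (W : WeilCohomology.{u, v} ops) (X : 𝒱.Obj) :
    ∃ e : Basis (Fin (finrank W.K (W.H X))) W.K (W.H X), ∀ j, ∃ a, e j ∈ PH W X a := by
  let b := (W.isInternal X).collectedBasis fun i => Module.finBasis W.K (W.gr X i)
  refine ⟨b.reindex (b.indexEquiv (Module.finBasis W.K (W.H X))), fun j => ?_⟩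
  rw [Basis.reindex_apply]
  exact ⟨_, PH.of ((W.isInternal X).collectedBasis_mem _ _)⟩

section Basis

variable {ι : Type} [Fintype ι] [DecidableEq ι] (e : Basis ι W.K (W.H X))

/-- One step in the construction of the basis given by words. -/
noncomputable def wbStep {κ : Type} (n : ℕ) (f : Basis κ W.K (W.H (pw X n))) :
    Basis (κ × ι) W.K (W.H (pw X (n + 1))) :=
  (f.tensorProduct e).map (kappa W (pw X n) X)

lemma wbStep_apply {κ : Type} (n : ℕ) (f : Basis κ W.K (W.H (pw X n))) (x : κ) (j : ι) :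
    wbStep e n f (x, j) = W.map (pfst X n) (f x) * W.map (psnd X n) (e j) := by
  have h : wbStep e n f (x, j) = kappa W (pw X n) X ((f.tensorProduct e) (x, j)) := rfl
  rw [h, Basis.tensorProduct_apply]
  exact kappa_tmul _ _

/-- The basis given by words. -/
noncomputable def wb : ∀ n, Basis (Fin (n + 1) → ι) W.K (W.H (pw X n))
  | 0 => (e.reindex (Equiv.funUnique (Fin 1) ι).symm : Basis (Fin 1 → ι) W.K (W.H X))
  | n + 1 => (wbStep e n (wb n)).reindex
      ((Equiv.prodComm _ _).trans (Fin.snocEquiv fun _ => ι))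

lemma wb_zero (w : Fin 1 → ι) : wb e 0 w = e (w 0) :=
  Basis.reindex_apply e (Equiv.funUnique (Fin 1) ι).symm w

lemma wb_succ (n : ℕ) (w : Fin (n + 2) → ι) :
    wb e (n + 1) w = W.map (pfst X n) (wb e n fun i => w i.castSucc) *
      W.map (psnd X n) (e (w (Fin.last _))) := by
  rw [wb, Basis.reindex_apply]
  have : ((Equiv.prodComm (Fin (n + 1) → ι) ι).trans (Fin.snocEquiv fun _ => ι)).symm w =
      (fun i => w i.castSucc, w (Fin.last _)) := rfl
  rw [this, wbStep_apply]

lemma wb_eq (n : ℕ) (w : Fin (n + 1) → ι) :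
    wb e n w = (List.ofFn fun i => W.map (prj X n i) (e (w i))).prod := by
  induction n with
  | zero =>
    rw [wb_zero, List.ofFn_succ, List.ofFn_zero, List.prod_singleton]
    exact (W.map_id _ _).symm
  | succ n ih =>
    conv_rhs => rw [List.ofFn_succ', List.prod_concat, prj_last]
    rw [wb_succ, ih, map_list_prod, List.map_ofFn]
    congr 3
    funext i
    rw [Function.comp_apply, prj_castSucc, W.map_comp]

lemma tau_wb (he : ∀ j, ∃ a, e j ∈ PH W X a) (n : ℕ) (σ : Equiv.Perm (Fin (n + 1)))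
    (w : Fin (n + 1) → ι) : ∃ s : W.K, s ≠ 0 ∧
      W.map (tau X n σ) (wb e n (w ∘ σ)) = s • wb e n w := by
  rw [wb_eq, wb_eq, map_list_prod, List.map_ofFn]
  have h1 : (W.map (tau X n σ)) ∘ (fun i => W.map (prj X n i) (e ((w ∘ σ) i))) =
      (fun i => W.map (prj X n i) (e (w i))) ∘ σ := by
    funext i
    rw [Function.comp_apply, Function.comp_apply, ← W.map_comp, tau_prj]
    rfl
  rw [h1]
  refine prod_perm (σ.ofFn_comp_perm _) ?_
  intro x hx
  rw [List.mem_ofFn] at hx
  obtain ⟨i, rfl⟩ := hx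
  obtain ⟨a, ha⟩ := he (w (σ i))
  exact ⟨a, PH.map _ ha⟩

end Basis

/-- The representation of the symmetric group on the cohomology of a power. -/
noncomputable def rho (W : WeilCohomology.{u, v} ops) (X : 𝒱.Obj) (n : ℕ) :
    Equiv.Perm (Fin (n + 1)) →* Module.End W.K (W.H (pw X n)) where
  toFun σ := (W.map (tau X n σ)).toLinearMap
  map_one' := by
    apply LinearMap.ext
    intro x
    rw [tau_one]
    exact W.map_id _ x
  map_mul' σ ρ := by
    apply LinearMap.ext
    intro x
    rw [tau_mul]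
    exact W.map_comp _ _ x

/-- The algebra spanned by the permutations. -/
noncomputable def permAlg (W : WeilCohomology.{u, v} ops) (X : 𝒱.Obj) (n : ℕ) :
    Subalgebra W.K (Module.End W.K (W.H (pw X n))) :=
  (MonoidAlgebra.lift W.K _ _ (rho W X n)).range

instance permAlg_ss (X : 𝒱.Obj) (n : ℕ) : IsSemisimpleRing (permAlg W X n) := by
  have hne : NeZero ((Nat.card (Equiv.Perm (Fin (n + 1))) : W.K)) :=
    ⟨Nat.cast_ne_zero.2 Nat.card_pos.ne'⟩
  have h1 : IsSemisimpleRing (MonoidAlgebra W.K (Equiv.Perm (Fin (n + 1)))) := by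
    unfold IsSemisimpleRing
    infer_instance
  let f : MonoidAlgebra W.K (Equiv.Perm (Fin (n + 1))) →+* permAlg W X n :=
    ((MonoidAlgebra.lift W.K _ _ (rho W X n)).rangeRestrict).toRingHom
  have hf : Function.Surjective f := AlgHom.rangeRestrict_surjective _
  exact RingHom.isSemisimpleRing_of_surjective f hf

lemma rho_mem (X : 𝒱.Obj) (n : ℕ) (σ : Equiv.Perm (Fin (n + 1))) :
    rho W X n σ ∈ permAlg W X n :=
  ⟨MonoidAlgebra.single σ 1, by
    change MonoidAlgebra.lift W.K _ _ (rho W X n) (MonoidAlgebra.single σ 1) = _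
    rw [MonoidAlgebra.lift_single, one_smul]⟩

namespace Sys

variable (S : Sys W)

lemma permAlg_le (X : 𝒱.Obj) (n : ℕ) {u : Module.End W.K (W.H (pw X n))}
    (hu : u ∈ permAlg W X n) : u ∈ S.Op (pw X n) (pw X n) := by
  obtain ⟨x, rfl⟩ := hu
  change MonoidAlgebra.lift W.K _ _ (rho W X n) x ∈ _
  rw [MonoidAlgebra.lift_apply, Finsupp.sum]
  exact Submodule.sum_mem _ fun σ _ => Submodule.smul_mem _ _ (Op.map _)

/-- **Growth of the number of classes.** The classes on `X^(2n+2)` which are sums of products of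
diagonals are already almost as many as the square root of the dimension of the cohomology. -/
theorem growth [IsAlgClosed W.K] (X : 𝒱.Obj) (n : ℕ) :
    finrank W.K (W.H X) ^ (2 * (n + 1)) ≤
      finrank W.K (S.C ((pw X n).prod (pw X n))) * (n + 2) ^ (finrank W.K (W.H X) ^ 2) := by
  classical
  obtain ⟨e, he⟩ := exists_hbasis W X
  let D : Submodule W.K (Module.End W.K (W.H (pw X n))) :=
    { carrier := {u | ∀ σ m, u (rho W X n σ m) = rho W X n σ (u m)}
      zero_mem' := fun σ m => by rw [LinearMap.zero_apply, LinearMap.zero_apply, map_zero]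
      add_mem' := fun {a b} ha hb σ m => by
        rw [LinearMap.add_apply, LinearMap.add_apply, ha σ m, hb σ m, map_add]
      smul_mem' := fun c a ha σ m => by
        rw [LinearMap.smul_apply, LinearMap.smul_apply, ha σ m, map_smul] }
  have h1 : finrank W.K D ≤ (n + 2) ^ (finrank W.K (W.H X) ^ 2) := by
    have h := commutant_le (wb e n) (fun σ => rho W X n σ) (tau_wb e he n) D
      fun u hu σ m => hu σ m
    rwa [Fintype.card_fin] at h
  have h2 := sq_le_mul_commutant W.K (permAlg W X n) (W.H (pw X n)) D fun u hu σ m =>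
    hu ⟨_, rho_mem X n σ⟩ m
  have h3 : finrank W.K (permAlg W X n) ≤ finrank W.K (S.C ((pw X n).prod (pw X n))) := by
    have h4 : Subalgebra.toSubmodule (permAlg W X n) ≤ S.Op (pw X n) (pw X n) :=
      fun u hu => S.permAlg_le X n hu
    exact (Submodule.finrank_mono h4).trans (Submodule.finrank_map_le _ _)
  rw [finrank_pw, ← pow_mul] at h2
  calc finrank W.K (W.H X) ^ (2 * (n + 1)) = finrank W.K (W.H X) ^ ((n + 1) * 2) := by
        rw [mul_comm]
    _ ≤ finrank W.K (permAlg W X n) * finrank W.K D := h2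
    _ ≤ _ := Nat.mul_le_mul h3 h1

end Sys

end Pool.Agent.Y129.Half
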