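import Pool.Agent.Y129.Half.Iso

/-!
# Isomorphisms between products and external products of operators
-/

open CategoryTheory AlgebraicGeometry

universe u v

namespace Pool.Agent.Y129.Half

open Module
open Pool.Agent.H914 Pool.Agent.H914.VarClass Pool.Agent.H914.VarClass.Obj
  Pool.Agent.H914.WeilCohomology

variable {k : Type u} [Field k] {𝒱 : VarClass k} {ops : CycleOps 𝒱}
  {W : WeilCohomology.{u, v} ops} {X Y Z Z' P Q M N Y' P' : 𝒱.Obj}

lemma map_xp (f : Z ⟶ X.prod Y) (x : W.H X) (y : W.H Y) :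
    W.map f (xp W x y) = W.map (f ≫ fst X Y) x * W.map (f ≫ snd X Y) y := by
  rw [xp, map_mul, ← W.map_comp, ← W.map_comp]

lemma extOp_xp (a : Module.End W.K (W.H X)) (b : Module.End W.K (W.H Y)) (x : W.H X)
    (y : W.H Y) : extOp W a b (xp W x y) = xp W (a x) (b y) := extOp_tmul a b x y

lemma θ₁_xp {a b : ℕ} {p : W.H P} (hp : p ∈ PH W P a) {y : W.H Y} (hy : y ∈ PH W Y b)
    (y' : W.H Y') : W.map (θ₁ Y P Y').hom (xp W p (xp W y y')) =
      (-1 : W.K) ^ (a * b) • xp W y (xp W p y') := by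
  have e1 : (θ₁ Y P Y').hom ≫ fst _ _ = snd _ _ ≫ fst _ _ := Obj.lift_fst _ _
  have e2 : (θ₁ Y P Y').hom ≫ snd _ _ = Obj.lift (fst _ _) (snd _ _ ≫ snd _ _) :=
    Obj.lift_snd _ _
  rw [map_xp, e1, e2, map_xp, Obj.lift_fst, Obj.lift_snd, ← mul_assoc,
    PH.comm (PH.map _ hp) (PH.map _ hy), smul_mul_assoc, mul_assoc, xp_def y, xp_def p,
    map_mul (W.map (snd Y (P.prod Y'))), ← W.map_comp, ← W.map_comp]

lemma θ₂_xp {a b : ℕ} (p : W.H P) {p' : W.H P'} (hp' : p' ∈ PH W P' a) {y : W.H Y}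
    (hy : y ∈ PH W Y b) (y' : W.H Y') : W.map (θ₂ P Y P' Y').hom (xp W (xp W p p') (xp W y y')) =
      (-1 : W.K) ^ (a * b) • xp W (xp W p y) (xp W p' y') := by
  have e1 : (θ₂ P Y P' Y').hom ≫ fst _ _ = Obj.lift (fst _ _ ≫ fst _ _) (snd _ _ ≫ fst _ _) :=
    Obj.lift_fst _ _
  have e2 : (θ₂ P Y P' Y').hom ≫ snd _ _ = Obj.lift (fst _ _ ≫ snd _ _) (snd _ _ ≫ snd _ _) :=
    Obj.lift_snd _ _
  rw [map_xp, e1, e2, map_xp, map_xp, Obj.lift_fst, Obj.lift_snd, Obj.lift_fst, Obj.lift_snd,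
    mul_assoc, ← mul_assoc (W.map _ p'), PH.comm (PH.map _ hp') (PH.map _ hy), smul_mul_assoc,
    mul_smul_comm, xp_def (xp W p y), xp_def p y, xp_def p' y',
    map_mul (W.map (fst (P.prod Y) (P'.prod Y'))), map_mul (W.map (snd (P.prod Y) (P'.prod Y'))),
    ← W.map_comp, ← W.map_comp, ← W.map_comp, ← W.map_comp, mul_assoc, mul_assoc]

lemma θ₃_xp (p : W.H P) (q : W.H Q) (z : W.H Z) :
    W.map (θ₃ P Q Z).hom (xp W p (xp W q z)) = xp W (xp W p q) z := by
  have e1 : (θ₃ P Q Z).hom ≫ fst _ _ = fst _ _ ≫ fst _ _ := Obj.lift_fst _ _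
  have e2 : (θ₃ P Q Z).hom ≫ snd _ _ = Obj.lift (fst _ _ ≫ snd _ _) (snd _ _) :=
    Obj.lift_snd _ _
  rw [map_xp, e1, e2, map_xp, Obj.lift_fst, Obj.lift_snd, xp_def (xp W p q), xp_def p q,
    map_mul (W.map (fst (P.prod Q) Z)), ← W.map_comp, ← W.map_comp, mul_assoc]

/-- Linear maps on the cohomology of a product agree if they agree on external products. -/
lemma xp_ext {V : Type*} [AddCommGroup V] [Module W.K V] {F G : W.H (X.prod Y) →ₗ[W.K] V}
    (h : ∀ i j, ∀ a ∈ PH W X i, ∀ b ∈ PH W Y j, F (xp W a b) = G (xp W a b)) : F = G := by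
  apply LinearMap.ext
  intro c
  refine xp_induction (p := fun c => F c = G c) ?_ ?_ c
  · intro a b ha hb; rw [map_add, map_add, ha, hb]
  · exact h

lemma xpL_ext {V : Type*} [AddCommGroup V] [Module W.K V]
    {F G : W.H (P.prod (X.prod Y)) →ₗ[W.K] V}
    (h : ∀ i j l, ∀ p ∈ PH W P i, ∀ a ∈ PH W X j, ∀ b ∈ PH W Y l,
      F (xp W p (xp W a b)) = G (xp W p (xp W a b))) : F = G := by
  apply xp_ext
  intro i _ p hp z _
  refine xp_induction (p := fun z => F (xp W p z) = G (xp W p z)) ?_ ?_ z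
  · intro a b ha hb; rw [xp_add_right, map_add, map_add, ha, hb]
  · intro j l a ha b hb
    exact h i j l p hp a ha b hb

lemma xpLR_ext {V : Type*} [AddCommGroup V] [Module W.K V]
    {F G : W.H ((P.prod Q).prod (X.prod Y)) →ₗ[W.K] V}
    (h : ∀ i j l m, ∀ p ∈ PH W P i, ∀ q ∈ PH W Q j, ∀ a ∈ PH W X l, ∀ b ∈ PH W Y m,
      F (xp W (xp W p q) (xp W a b)) = G (xp W (xp W p q) (xp W a b))) : F = G := by
  apply xpL_ext
  intro _ l m w _ a ha b hb
  refine xp_induction (p := fun w => F (xp W w (xp W a b)) = G (xp W w (xp W a b))) ?_ ?_ w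
  · intro c d hc hd; rw [xp_add_left, map_add, map_add, hc, hd]
  · intro i j p hp q hq
    exact h i j l m p hp q hq a ha b hb

lemma θ₁_op {g : Module.End W.K (W.H P)} (hg : Ev W g) (x : W.H (P.prod (Y.prod Y'))) :
    extOp W (1 : Module.End W.K (W.H Y)) (extOp W g (1 : Module.End W.K (W.H Y')))
      (W.map (θ₁ Y P Y').hom x) =
      W.map (θ₁ Y P Y').hom (extOp W g (1 : Module.End W.K (W.H (Y.prod Y'))) x) := by
  have h : (extOp W (1 : Module.End W.K (W.H Y)) (extOp W g (1 : Module.End W.K (W.H Y')))) ∘ₗ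
      (W.map (θ₁ Y P Y').hom).toLinearMap = (W.map (θ₁ Y P Y').hom).toLinearMap ∘ₗ
        (extOp W g (1 : Module.End W.K (W.H (Y.prod Y')))) := by
    apply xpL_ext
    intro i j l p hp a ha b hb
    simp only [LinearMap.comp_apply, AlgHom.toLinearMap_apply, extOp_xp, Module.End.one_apply]
    rw [θ₁_xp hp ha, θ₁_xp (hg _ _ hp) ha, map_smul, extOp_xp, extOp_xp]
    simp only [Module.End.one_apply]
  exact congrArg (fun f => f x) h

lemma θ₂_op {g : Module.End W.K (W.H P)} {g' : Module.End W.K (W.H P')} (hg' : Ev W g')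
    (x : W.H ((P.prod P').prod (Y.prod Y'))) :
    extOp W (extOp W g (1 : Module.End W.K (W.H Y))) (extOp W g' (1 : Module.End W.K (W.H Y')))
      (W.map (θ₂ P Y P' Y').hom x) =
      W.map (θ₂ P Y P' Y').hom
        (extOp W (extOp W g g') (1 : Module.End W.K (W.H (Y.prod Y'))) x) := by
  have h : (extOp W (extOp W g (1 : Module.End W.K (W.H Y)))
      (extOp W g' (1 : Module.End W.K (W.H Y')))) ∘ₗ
      (W.map (θ₂ P Y P' Y').hom).toLinearMap = (W.map (θ₂ P Y P' Y').hom).toLinearMap ∘ₗ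
        (extOp W (extOp W g g') (1 : Module.End W.K (W.H (Y.prod Y')))) := by
    apply xpLR_ext
    intro i j l m p hp q hq a ha b hb
    simp only [LinearMap.comp_apply, AlgHom.toLinearMap_apply, extOp_xp, Module.End.one_apply]
    rw [θ₂_xp p hq ha, θ₂_xp (g p) (hg' _ _ hq) ha, map_smul, extOp_xp, extOp_xp, extOp_xp]
    simp only [Module.End.one_apply]
  exact congrArg (fun f => f x) h

lemma θ₃_op (g : Module.End W.K (W.H P)) (x : W.H (P.prod (Q.prod Z))) :
    extOp W (extOp W g (1 : Module.End W.K (W.H Q))) (1 : Module.End W.K (W.H Z))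
      (W.map (θ₃ P Q Z).hom x) =
      W.map (θ₃ P Q Z).hom (extOp W g (1 : Module.End W.K (W.H (Q.prod Z))) x) := by
  have h : (extOp W (extOp W g (1 : Module.End W.K (W.H Q))) (1 : Module.End W.K (W.H Z))) ∘ₗ
      (W.map (θ₃ P Q Z).hom).toLinearMap = (W.map (θ₃ P Q Z).hom).toLinearMap ∘ₗ
        (extOp W g (1 : Module.End W.K (W.H (Q.prod Z)))) := by
    apply xpL_ext
    intro i j l p hp a ha b hb
    simp only [LinearMap.comp_apply, AlgHom.toLinearMap_apply, extOp_xp, Module.End.one_apply]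
    rw [θ₃_xp, θ₃_xp, extOp_xp, extOp_xp]
    simp only [Module.End.one_apply]
  exact congrArg (fun f => f x) h

lemma Ev.extOp {a : Module.End W.K (W.H X)} {b : Module.End W.K (W.H Y)} (ha : Ev W a)
    (hb : Ev W b) : Ev W (H914.extOp W a b) := by
  intro n x hx
  -- decompose the class into its Kunneth components of the right parity
  have key : ∀ c : W.H (X.prod Y), ∃ c₀ ∈ PH W (X.prod Y) 0, ∃ c₁ ∈ PH W (X.prod Y) 1,
      c = c₀ + c₁ ∧ H914.extOp W a b c₀ ∈ PH W (X.prod Y) 0 ∧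
        H914.extOp W a b c₁ ∈ PH W (X.prod Y) 1 := by
    intro c
    refine xp_induction (p := fun c => ∃ c₀ ∈ PH W (X.prod Y) 0, ∃ c₁ ∈ PH W (X.prod Y) 1,
      c = c₀ + c₁ ∧ H914.extOp W a b c₀ ∈ PH W (X.prod Y) 0 ∧
        H914.extOp W a b c₁ ∈ PH W (X.prod Y) 1) ?_ ?_ c
    · rintro c d ⟨c₀, h1, c₁, h2, rfl, h3, h4⟩ ⟨d₀, k1, d₁, k2, rfl, k3, k4⟩
      refine ⟨c₀ + d₀, Submodule.add_mem _ h1 k1, c₁ + d₁, Submodule.add_mem _ h2 k2, by abel,
        ?_, ?_⟩
      · rw [map_add]; exact Submodule.add_mem _ h3 k3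
      · rw [map_add]; exact Submodule.add_mem _ h4 k4
    · intro i j p hp q hq
      by_cases hij : (i + j) % 2 = 0
      · refine ⟨xp W p q, PH.congr (by omega) (xp_mem hp hq), 0, Submodule.zero_mem _,
          (add_zero _).symm, ?_, ?_⟩
        · rw [extOp_xp]
          exact PH.congr (by omega) (xp_mem (ha _ _ hp) (hb _ _ hq))
        · rw [map_zero]; exact Submodule.zero_mem _
      · refine ⟨0, Submodule.zero_mem _, xp W p q, PH.congr (by omega) (xp_mem hp hq),
          (zero_add _).symm, ?_, ?_⟩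
        · rw [map_zero]; exact Submodule.zero_mem _
        · rw [extOp_xp]
          exact PH.congr (by omega) (xp_mem (ha _ _ hp) (hb _ _ hq))
  obtain ⟨c₀, h1, c₁, h2, he, h3, h4⟩ := key x
  have hpar := PH.par hx
  rw [he, map_add, PH.par h1, PH.par h2] at hpar
  rcases Nat.mod_two_eq_zero_or_one n with hn | hn
  · have hs : (-1 : W.K) ^ n = 1 := by rw [neg_pow_congr (b := 0) (by omega), pow_zero]
    rw [hs] at hpar
    have h5 : c₁ = 0 := by
      have : (2 : W.K) • c₁ = 0 := by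
        rw [pow_zero, one_smul, one_smul, pow_one, neg_one_smul] at hpar
        rw [two_smul]
        have h6 : -c₁ = c₁ := add_left_cancel hpar
        calc c₁ + c₁ = c₁ + -c₁ := by rw [h6]
          _ = 0 := add_neg_cancel c₁
      exact (smul_eq_zero.1 this).resolve_left two_ne_zero
    rw [he, h5, add_zero]
    exact PH.congr (by omega) h3
  · have hs : (-1 : W.K) ^ n = -1 := by rw [neg_pow_congr (b := 1) (by omega), pow_one]
    rw [hs] at hpar
    have h5 : c₀ = 0 := by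
      have : (2 : W.K) • c₀ = 0 := by
        rw [pow_zero, one_smul, pow_one, neg_one_smul, neg_one_smul, neg_add] at hpar
        rw [two_smul]
        have h6 : c₀ = -c₀ := add_right_cancel hpar
        calc c₀ + c₀ = c₀ + -c₀ := by rw [← h6]
          _ = 0 := add_neg_cancel c₀
      exact (smul_eq_zero.1 this).resolve_left two_ne_zero
    rw [he, h5, zero_add]
    exact PH.congr (by omega) h4

lemma Adj.extOp {a a' : Module.End W.K (W.H X)} {b b' : Module.End W.K (W.H Y)}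
    (ha : Adj W a a') (hb : Adj W b b') (eva : Ev W a') (evb : Ev W b) :
    Adj W (H914.extOp W a b) (H914.extOp W a' b') := by
  intro c d
  refine xp_induction (p := fun c => W.tr _ (H914.extOp W a b c * d) =
    W.tr _ (c * H914.extOp W a' b' d)) ?_ ?_ c
  · intro c c' hc hc'; rw [map_add, add_mul, map_add, hc, hc', add_mul, map_add]
  intro i j x hx y hy
  refine xp_induction (p := fun d => W.tr _ (H914.extOp W a b (xp W x y) * d) =
    W.tr _ (xp W x y * H914.extOp W a' b' d)) ?_ ?_ d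
  · intro c c' hc hc'; rw [mul_add, map_add, hc, hc', map_add, mul_add, map_add]
  intro l m x' hx' y' hy'
  rw [extOp_xp, extOp_xp, xp_mul _ _ _ _ (evb _ _ hy) hx', xp_mul _ _ _ _ hy (eva _ _ hx'),
    map_smul, map_smul, tr_xp, tr_xp, ha, hb]

end Pool.Agent.Y129.Half
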