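import Pool.Agent.Y129.Half.Blk

/-!
# Chains of stable subspaces and ranks of forms
-/

set_option linter.unusedSectionVars false

namespace Pool.Agent.Y129.Half

open Module Polynomial

section Fit

variable {K V : Type*} [Field K] [AddCommGroup V] [Module K V] [FiniteDimensional K V]

/-- The Fitting projector of an operator is a polynomial multiple of the operator. -/
lemma exists_fit (y : Module.End K V) : ∃ q : K[X],
    (aeval y q * y) * (aeval y q * y) = aeval y q * y ∧ (aeval y q * y = 0 → IsNilpotent y) := by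
  have h0 : minpoly K y ≠ 0 := minpoly.ne_zero (Algebra.IsIntegral.isIntegral y)
  obtain ⟨f, hf, hnd⟩ := exists_eq_pow_rootMultiplicity_mul_and_not_dvd (minpoly K y) h0 0
  set m := (minpoly K y).rootMultiplicity 0
  rw [map_zero, sub_zero] at hf hnd
  have hirr : Irreducible (X : K[X]) := irreducible_X
  have hc : IsCoprime ((X : K[X]) ^ (m + 1)) f :=
    ((hirr.coprime_iff_not_dvd).2 hnd).pow_left
  obtain ⟨a, b, hab⟩ := hc
  have hmin : aeval y (X ^ m * f) = 0 := by rw [← hf]; exact minpoly.aeval K y
  have hq : aeval y (a * X ^ m) * y = aeval y (a * X ^ (m + 1)) := by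
    have : a * X ^ (m + 1) = (a * X ^ m) * X := by ring
    rw [this, map_mul (aeval y) (a * X ^ m) X, aeval_X]
  refine ⟨a * X ^ m, ?_, ?_⟩
  · rw [hq, ← map_mul]
    have h1 : a * X ^ (m + 1) * (a * X ^ (m + 1)) =
        a * X ^ (m + 1) - (a * b * X) * (X ^ m * f) := by
      have : a * X ^ (m + 1) = 1 - b * f := by rw [← hab]; ring
      calc a * X ^ (m + 1) * (a * X ^ (m + 1)) = a * X ^ (m + 1) * (1 - b * f) := by
            rw [← this]
        _ = _ := by ring
    rw [h1, map_sub, map_mul (aeval y) (a * b * X), hmin, mul_zero, sub_zero]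
  · intro h
    rw [hq] at h
    refine ⟨m + 1, ?_⟩
    have h1 : aeval y (b * f) = 1 := by
      have h2 := congrArg (aeval y) hab
      rw [map_add, h, zero_add, map_one] at h2
      exact h2
    have h3 : y ^ (m + 1) = aeval y ((X : K[X]) ^ (m + 1)) * aeval y (b * f) := by
      rw [h1, mul_one, map_pow, aeval_X]
    have h4 : (X : K[X]) ^ (m + 1) * (b * f) = (b * X) * (X ^ m * f) := by ring
    rw [h3, ← map_mul, h4, map_mul (aeval y) (b * X), hmin, mul_zero]

end Fit

namespace Cat

variable {ι K : Type*} [Fintype ι] [DecidableEq ι] [Field K] {V : ι → Type*}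
  [∀ i, AddCommGroup (V i)] [∀ i, Module K (V i)] [∀ i, FiniteDimensional K (V i)]
  (C : Cat K V)

lemma aeval_mem {i : ι} {y : Module.End K (V i)} (hy : y ∈ C.S i i) (q : K[X]) :
    aeval y q ∈ C.S i i := by
  induction q using Polynomial.induction_on' with
  | add p q hp hq => rw [map_add]; exact Submodule.add_mem _ hp hq
  | monomial n a =>
    rw [aeval_monomial]
    have h1 : y ^ n ∈ C.S i i := by
      induction n with
      | zero => rw [pow_zero]; exact C.one i
      | succ n ih => rw [pow_succ]; exact C.mul ih hy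
    have h2 : algebraMap K (Module.End K (V i)) a * y ^ n = a • y ^ n := by
      rw [Algebra.smul_def]
    rw [h2]
    exact Submodule.smul_mem _ _ h1

/-- The trace of a nilpotent operator vanishes. -/
lemma tr_nil {i : ι} {x : Module.End K (V i)} (hx : x ∈ C.S i i) (hn : IsNilpotent x) :
    LinearMap.trace K (V i) (C.p i ∘ₗ x) = 0 := by
  have h2 : IsNilpotent (C.p i * x) := by
    obtain ⟨n, hn⟩ := hn
    refine ⟨n, ?_⟩
    have hc : Commute (C.p i : Module.End K (V i)) x := C.comm hx
    rw [hc.mul_pow, hn, mul_zero]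
  exact (LinearMap.isNilpotent_trace_of_isNilpotent h2).eq_zero

/-- The span of the values of the operators from `V i` to `V j` on the subspace `M`. -/
def gen (i j : ι) (M : Submodule K (V i)) : Submodule K (V j) :=
  Submodule.span K {x | ∃ v ∈ C.S j i, ∃ m ∈ M, v m = x}

lemma gen_mono {i j : ι} {M M' : Submodule K (V i)} (h : M' ≤ M) : C.gen i j M' ≤ C.gen i j M :=
  Submodule.span_mono fun _ ⟨v, hv, m, hm, e⟩ => ⟨v, hv, m, h hm, e⟩

/-- `M` is stable under the operators in `S i i`. -/
def Stable {i : ι} (M : Submodule K (V i)) : Prop := ∀ a ∈ C.S i i, ∀ m ∈ M, a m ∈ M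

lemma gen_apply {i j : ι} {M : Submodule K (V i)} (hM : C.Stable M) {u : V j →ₗ[K] V i}
    (hu : u ∈ C.S i j) {x : V j} (hx : x ∈ C.gen i j M) : u x ∈ M := by
  induction hx using Submodule.span_induction with
  | mem x hx =>
    obtain ⟨v, hv, m, hm, rfl⟩ := hx
    exact hM _ (C.mul hu hv) m hm
  | zero => rw [map_zero]; exact Submodule.zero_mem _
  | add x y _ _ hx hy => rw [map_add]; exact Submodule.add_mem _ hx hy
  | smul c x _ hx => rw [map_smul]; exact Submodule.smul_mem _ _ hx

/-- One step of a chain. -/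
theorem step (i : ι) {M' M : Submodule K (V i)} (hM' : C.Stable M') (hM : C.Stable M)
    (hlt : M' < M) : ∃ g ∈ C.S i i, g ∘ₗ g = g ∧ g ≠ 0 ∧ ∀ j,
      finrank K (C.gen i j M') + rk (C.B i j g LinearMap.id) ≤ finrank K (C.gen i j M) := by
  classical
  -- an idempotent of minimal rank which is not zero on `M / M'`
  let Q : ℕ → Prop := fun n => ∃ g ∈ C.S i i, g ∘ₗ g = g ∧ (∃ m ∈ M, g m ∉ M') ∧
    finrank K (LinearMap.range g) = n
  have hQ : ∃ n, Q n := by
    obtain ⟨m, hm, hm'⟩ := SetLike.exists_of_lt hlt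
    exact ⟨_, LinearMap.id, C.one i, rfl, ⟨m, hm, hm'⟩, rfl⟩
  obtain ⟨g, hg, hgg, ⟨m, hm, hgm⟩, hn⟩ := Nat.find_spec hQ
  have hmin : ∀ g' ∈ C.S i i, g' ∘ₗ g' = g' → finrank K (LinearMap.range g') <
      finrank K (LinearMap.range g) → ∀ m ∈ M, g' m ∈ M' := by
    intro g' hg' hgg' hlt' m hm
    by_contra h
    rw [hn] at hlt'
    exact Nat.find_min hQ hlt' ⟨g', hg', hgg', ⟨m, hm, h⟩, rfl⟩
  refine ⟨g, hg, hgg, ?_, fun j => ?_⟩
  · rintro rfl
    exact hgm (by simp)
  set z := g m with hz
  have hzM : z ∈ M := hM g hg m hm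
  have hgz : g z = z := congrArg (fun f : V i →ₗ[K] V i => f m) hgg
  -- the key property
  have key : ∀ x ∈ C.S i i, x z ∈ M' → LinearMap.trace K (V i) (C.p i ∘ₗ g ∘ₗ x) = 0 := by
    intro x hx hxz
    set y : Module.End K (V i) := g ∘ₗ x ∘ₗ g with hy
    have hyS : y ∈ C.S i i := C.mul hg (C.mul hx hg)
    have hgy : g ∘ₗ y = y := by rw [hy, ← LinearMap.comp_assoc, hgg]
    have hyg : y ∘ₗ g = y := by rw [hy, LinearMap.comp_assoc, LinearMap.comp_assoc, hgg]
    have hyz : y z ∈ M' := by
      rw [hy, LinearMap.comp_apply, LinearMap.comp_apply, hgz]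
      exact hM' g hg _ hxz
    obtain ⟨q, hq1, hq2⟩ := exists_fit y
    set u := aeval y q with hu
    have huS : u ∈ C.S i i := C.aeval_mem hyS q
    have hcomm : u * y = y * u := by
      have : Commute (aeval y q) (aeval y (X : K[X])) := by
        rw [Commute, SemiconjBy, ← map_mul, ← map_mul, mul_comm]
      rw [aeval_X] at this
      exact this
    set π := u * y with hπ
    have hπS : π ∈ C.S i i := C.mul huS hyS
    have hgπ : g * π = π := by
      rw [hcomm, ← mul_assoc]
      exact congrArg (fun f : Module.End K (V i) => f * u) hgy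
    have hπg : π * g = π := by
      rw [hπ, mul_assoc]
      exact congrArg (fun f : Module.End K (V i) => u * f) hyg
    have hπ0 : π = 0 := by
      by_contra hne
      have h1 : (g - π) ∘ₗ (g - π) = g - π := by
        change (g - π) * (g - π) = g - π
        rw [sub_mul, mul_sub, mul_sub, hgπ, hπg, hq1, sub_self, sub_zero]
        change g ∘ₗ g - π = _
        rw [hgg]
      have h2 : (g - π) ∈ C.S i i := Submodule.sub_mem _ hg hπS
      have h3 : finrank K (LinearMap.range (g - π)) < finrank K (LinearMap.range g) := by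
        have hle : LinearMap.range (g - π) ≤ LinearMap.range g := by
          rintro _ ⟨x, rfl⟩
          refine ⟨(g - π) x, ?_⟩
          have : g * (g - π) = g - π := by
            rw [mul_sub, hgπ]
            change g ∘ₗ g - π = _
            rw [hgg]
          exact congrArg (fun f : Module.End K (V i) => f x) this
        apply Submodule.finrank_lt_finrank_of_lt
        refine lt_of_le_of_ne hle ?_
        intro heq
        apply hne
        apply LinearMap.ext
        intro x
        have h4 : π x ∈ LinearMap.range g := ⟨π x, congrArg (fun f : Module.End K (V i) => f x) hgπ⟩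
        rw [← heq] at h4
        obtain ⟨w, hw⟩ := h4
        have h5 : π ((g - π) w) = 0 := by
          have : π * (g - π) = 0 := by rw [mul_sub, hπg, hq1, sub_self]
          exact congrArg (fun f : Module.End K (V i) => f w) this
        rw [hw] at h5
        have h6 : π (π x) = π x := congrArg (fun f : Module.End K (V i) => f x) hq1
        rw [LinearMap.zero_apply, ← h6, h5]
      have h4 : (g - π) z ∈ M' := hmin _ h2 h1 h3 z hzM
      have h5 : π z ∈ M' := by
        rw [hπ, Module.End.mul_apply]
        exact hM' u huS _ hyz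
      have h6 : z ∈ M' := by
        have : z = (g - π) z + π z := by rw [LinearMap.sub_apply, hgz, sub_add_cancel]
        rw [this]
        exact Submodule.add_mem _ h4 h5
      exact hgm h6
    have hnil : IsNilpotent y := hq2 hπ0
    have h7 := C.tr_nil hyS hnil
    rw [hy] at h7
    have h8 : C.p i ∘ₗ g = g ∘ₗ C.p i := C.comm hg
    calc LinearMap.trace K (V i) (C.p i ∘ₗ g ∘ₗ x)
        = LinearMap.trace K (V i) (C.p i ∘ₗ (g ∘ₗ g) ∘ₗ x) := by rw [hgg]
      _ = LinearMap.trace K (V i) (g ∘ₗ (C.p i ∘ₗ g ∘ₗ x)) := by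
          congr 1
          rw [LinearMap.comp_assoc, ← LinearMap.comp_assoc (g ∘ₗ x) g (C.p i), h8,
            LinearMap.comp_assoc]
      _ = LinearMap.trace K (V i) ((C.p i ∘ₗ g ∘ₗ x) ∘ₗ g) := LinearMap.trace_comp_comm' _ _
      _ = 0 := by rw [← h7]; rfl
  -- the map `v ↦ v z`
  let Λ : C.S j i →ₗ[K] (V j ⧸ C.gen i j M') :=
    { toFun := fun v => (C.gen i j M').mkQ ((v : V i →ₗ[K] V j) z)
      map_add' := fun a b => by rw [Submodule.coe_add, LinearMap.add_apply, map_add]
      map_smul' := fun c a => by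
        rw [Submodule.coe_smul, LinearMap.smul_apply, map_smul, RingHom.id_apply] }
  have hker : LinearMap.ker Λ ≤ LinearMap.ker (C.B i j g LinearMap.id).flip := by
    intro v hv
    rw [LinearMap.mem_ker] at hv ⊢
    have h1 : (v : V i →ₗ[K] V j) z ∈ C.gen i j M' := by
      have : (C.gen i j M').mkQ ((v : V i →ₗ[K] V j) z) = 0 := hv
      rwa [Submodule.mkQ_apply, Submodule.Quotient.mk_eq_zero] at this
    apply LinearMap.ext
    intro u
    rw [LinearMap.flip_apply, B_apply, LinearMap.id_comp, LinearMap.zero_apply]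
    exact key _ (C.mul u.2 v.2) (C.gen_apply hM' u.2 h1)
  have hr1 := LinearMap.finrank_range_add_finrank_ker Λ
  have hr2 := LinearMap.finrank_range_add_finrank_ker (C.B i j g LinearMap.id).flip
  have hr3 := Submodule.finrank_mono hker
  have hr4 : rk (C.B i j g LinearMap.id) ≤ finrank K (LinearMap.range Λ) := by
    rw [← rk_flip, rk]
    omega
  have hr5 : LinearMap.range Λ ≤ (C.gen i j M).map (C.gen i j M').mkQ := by
    rintro _ ⟨v, rfl⟩
    exact ⟨_, Submodule.subset_span ⟨v, v.2, z, hzM, rfl⟩, rfl⟩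
  have hr6 := Submodule.finrank_mono hr5
  have hle := C.gen_mono (j := j) hlt.le
  have hr7 : finrank K ((C.gen i j M).map (C.gen i j M').mkQ) + finrank K (C.gen i j M') =
      finrank K (C.gen i j M) := by
    have h1 := LinearMap.finrank_range_add_finrank_ker
      ((C.gen i j M').mkQ.domRestrict (C.gen i j M))
    rw [LinearMap.range_domRestrict] at h1
    rw [← h1]
    congr 1
    have h2 : LinearMap.ker ((C.gen i j M').mkQ.domRestrict (C.gen i j M)) =
        (C.gen i j M').submoduleOf (C.gen i j M) := by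
      ext x
      simp [Submodule.submoduleOf]
    rw [h2]
    exact (Submodule.submoduleOfEquivOfLe hle).finrank_eq.symm
  omega

/-- Chains of stable subspaces. -/
theorem chain (i : ι) (M : ℕ → Submodule K (V i)) (hM : ∀ n, C.Stable (M n)) (l : ℕ)
    (hlt : ∀ n < l, M n < M (n + 1)) (j : ι) :
    ∃ g : ℕ → Module.End K (V i), (∀ n < l, g n ∈ C.S i i ∧ g n ∘ₗ g n = g n ∧ g n ≠ 0) ∧
      ∑ n ∈ Finset.range l, rk (C.B i j (g n) LinearMap.id) ≤ finrank K (C.gen i j (M l)) := by
  induction l with
  | zero => exact ⟨0, fun n hn => absurd hn (by omega), by simp⟩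
  | succ l ih =>
    obtain ⟨g, hg, hs⟩ := ih fun n hn => hlt n (by omega)
    obtain ⟨g', hg'1, hg'2, hg'3, hg'4⟩ := C.step i (hM l) (hM (l + 1)) (hlt l (by omega))
    refine ⟨fun n => if n < l then g n else g', fun n hn => ?_, ?_⟩
    · by_cases h : n < l
      · simp only [if_pos h]; exact hg n h
      · simp only [if_neg h]; exact ⟨hg'1, hg'2, hg'3⟩
    · rw [Finset.sum_range_succ]
      have h1 : ∑ n ∈ Finset.range l, rk (C.B i j (if n < l then g n else g') LinearMap.id) =
          ∑ n ∈ Finset.range l, rk (C.B i j (g n) LinearMap.id) := by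
        refine Finset.sum_congr rfl fun n hn => ?_
        rw [if_pos (Finset.mem_range.1 hn)]
      rw [h1]
      beta_reduce
      rw [if_neg (lt_irrefl l)]
      have := hg'4 j
      omega

/-- A non-nilpotent element of the radical of the trace form yields an idempotent in the
radical. -/
theorem exists_idem {i : ι} {x : Module.End K (V i)} (hx : x ∈ C.S i i)
    (h0 : ∀ y ∈ C.S i i, LinearMap.trace K (V i) (C.p i ∘ₗ x ∘ₗ y) = 0) (hn : ¬ IsNilpotent x) :
    ∃ g ∈ C.S i i, g ∘ₗ g = g ∧ g ≠ 0 ∧ ∀ j, C.B i j g LinearMap.id = 0 := by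
  obtain ⟨q, hq1, hq2⟩ := exists_fit x
  have hu : aeval x q ∈ C.S i i := C.aeval_mem hx q
  have hcomm : aeval x q * x = x * aeval x q := by
    have : Commute (aeval x q) (aeval x (X : K[X])) := by
      rw [Commute, SemiconjBy, ← map_mul, ← map_mul, mul_comm]
    rw [aeval_X] at this
    exact this
  refine ⟨aeval x q * x, C.mul hu hx, hq1, fun h => hn (hq2 h), fun j => ?_⟩
  apply LinearMap.ext
  intro u
  apply LinearMap.ext
  intro v
  rw [B_apply, LinearMap.id_comp, hcomm]
  exact h0 _ (C.mul hu (C.mul u.2 v.2))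

lemma B_add (i j : ι) (g g' : V i →ₗ[K] V i) (h : V j →ₗ[K] V j) :
    C.B i j (g + g') h = C.B i j g h + C.B i j g' h := by
  apply LinearMap.ext
  intro u
  apply LinearMap.ext
  intro v
  rw [LinearMap.add_apply, LinearMap.add_apply, B_apply, B_apply, B_apply, LinearMap.add_comp,
    LinearMap.comp_add, map_add]

end Cat

end Pool.Agent.Y129.Half
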