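import Mathlib

/-!
# The Cauchy-Schwarz inequality for idempotents in a semisimple algebra

For idempotents `e`, `f` of a finite-dimensional semisimple algebra `R` over an algebraically closed
field of characteristic zero, `dim (e R f) ^ 2 ≤ dim (e R e) * dim (f R f)`.
-/

namespace Pool.Agent.Y129.Half

open Module

section Proj

variable {K V : Type*} [Field K] [AddCommGroup V] [Module K V]

/-- The trace of an idempotent is the dimension of its range. -/
lemma trace_idem [FiniteDimensional K V] {f : V →ₗ[K] V} (h : f ∘ₗ f = f) :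
    LinearMap.trace K V f = (finrank K (LinearMap.range f) : K) := by
  have hp : LinearMap.IsProj (LinearMap.range f) f := by
    refine ⟨fun x => LinearMap.mem_range_self f x, ?_⟩
    rintro _ ⟨x, rfl⟩
    exact congrArg (fun g : V →ₗ[K] V => g x) h
  exact hp.trace

end Proj

section PC

variable {K R : Type*} [Field K] [Ring R] [Algebra K R]

/-- The map `x ↦ e x f`. -/
def pc (e f : R) : R →ₗ[K] R := LinearMap.mulLeft K e ∘ₗ LinearMap.mulRight K f

@[simp] lemma pc_apply (e f x : R) : pc (K := K) e f x = e * (x * f) := rfl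

lemma pc_idem {e f : R} (he : e * e = e) (hf : f * f = f) :
    pc (K := K) e f ∘ₗ pc e f = pc e f := by
  apply LinearMap.ext
  intro x
  simp only [LinearMap.comp_apply, pc_apply]
  rw [mul_assoc e (x * f) f, mul_assoc x f f, hf, ← mul_assoc e e, he]

end PC

section Mat

variable {K : Type*} [Field K]

/-- The trace of `x ↦ e x f` on a product of matrix algebras. -/
lemma trace_pc_pi {n : ℕ} (d : Fin n → ℕ) (e f : Π i, Matrix (Fin (d i)) (Fin (d i)) K) :
    LinearMap.trace K (Π i, Matrix (Fin (d i)) (Fin (d i)) K) (pc e f) =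
      ∑ i, (e i).trace * (f i).trace := by
  classical
  let b : Basis ((i : Fin n) × (Fin (d i) × Fin (d i))) K
    (Π i, Matrix (Fin (d i)) (Fin (d i)) K) := Pi.basis fun i => Matrix.stdBasis K _ _
  rw [LinearMap.trace_eq_matrix_trace K b, Matrix.trace, Fintype.sum_sigma]
  refine Finset.sum_congr rfl fun i _ => ?_
  rw [Fintype.sum_prod_type, Matrix.trace, Matrix.trace, Finset.sum_mul_sum]
  refine Finset.sum_congr rfl fun a _ => Finset.sum_congr rfl fun c _ => ?_
  rw [Matrix.diag_apply, LinearMap.toMatrix_apply]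
  have hb : b ⟨i, (a, c)⟩ = Pi.single i (Matrix.single a c (1 : K)) := by
    simp [b, Pi.basis_apply, Matrix.stdBasis_eq_single]
  rw [hb]
  have hr : ∀ x : Π i, Matrix (Fin (d i)) (Fin (d i)) K, b.repr x ⟨i, (a, c)⟩ = x i a c := by
    intro x
    simp [b, Pi.basis_repr, Matrix.stdBasis]
  rw [hr, pc_apply, Pi.mul_apply, Pi.mul_apply, Pi.single_eq_same]
  simp [Matrix.mul_apply, Matrix.single_apply, ite_and]

end Mat

section Main

variable {K R : Type*} [Field K] [IsAlgClosed K] [CharZero K] [Ring R] [Algebra K R]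
  [FiniteDimensional K R] [IsSemisimpleRing R]

/-- The dimension of `e R f`. -/
noncomputable def dm (K : Type*) {R : Type*} [Field K] [Ring R] [Algebra K R] (e f : R) : ℕ :=
  finrank K (LinearMap.range (pc (K := K) e f))

lemma exists_ranks : ∃ (n : ℕ) (r : R → Fin n → ℕ), ∀ e f : R, e * e = e → f * f = f →
    dm K e f = ∑ i, r e i * r f i := by
  classical
  obtain ⟨n, d, _, ⟨φ⟩⟩ := IsSemisimpleRing.exists_algEquiv_pi_matrix_of_isAlgClosed K R
  have hex : ∀ e : R, ∃ r : Fin n → ℕ, e * e = e → ∀ i, ((φ e) i).trace = (r i : K) := by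
    intro e
    by_cases he : e * e = e
    · refine ⟨fun i => finrank K (LinearMap.range (Matrix.toLin' ((φ e) i))), fun _ i => ?_⟩
      have h1 : (φ e) i * (φ e) i = (φ e) i := by
        rw [← Pi.mul_apply, ← map_mul, he]
      have h2 : Matrix.toLin' ((φ e) i) ∘ₗ Matrix.toLin' ((φ e) i) = Matrix.toLin' ((φ e) i) := by
        rw [← Matrix.toLin'_mul, h1]
      rw [← trace_idem h2, ← Matrix.trace_toLin'_eq]
    · exact ⟨0, fun h => absurd h he⟩
  choose r hr using hex
  refine ⟨n, r, fun e f he hf => ?_⟩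
  have h1 := trace_idem (K := K) (pc_idem he hf)
  have h2 : LinearMap.trace K R (pc e f) =
      LinearMap.trace K (Π i, Matrix (Fin (d i)) (Fin (d i)) K) (pc (φ e) (φ f)) := by
    rw [← LinearMap.trace_conj' (pc (K := K) e f) φ.toLinearEquiv]
    congr 1
    apply LinearMap.ext
    intro x
    simp [LinearEquiv.conj_apply]
  rw [h2, trace_pc_pi] at h1
  have h3 : ((∑ i, r e i * r f i : ℕ) : K) = (dm K e f : K) := by
    rw [dm, ← h1]
    push_cast
    exact Finset.sum_congr rfl fun i _ => by rw [hr e he, hr f hf]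
  exact_mod_cast h3.symm

/-- **The Cauchy-Schwarz inequality.** -/
theorem dm_sq_le {e f : R} (he : e * e = e) (hf : f * f = f) :
    dm K e f ^ 2 ≤ dm K e e * dm K f f := by
  obtain ⟨n, r, hr⟩ := exists_ranks (K := K) (R := R)
  rw [hr e f he hf, hr e e he he, hr f f hf hf]
  have h := Finset.sum_mul_sq_le_sq_mul_sq Finset.univ (fun i => (r e i : ℤ)) (fun i => (r f i : ℤ))
  have h2 : ((∑ i, r e i * r f i : ℕ) : ℤ) ^ 2 ≤
      ((∑ i, r e i * r e i : ℕ) : ℤ) * ((∑ i, r f i * r f i : ℕ) : ℤ) := by
    push_cast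
    simpa [sq] using h
  exact_mod_cast h2

end Main

end Pool.Agent.Y129.Half
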